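import Mathlib

set_option autoImplicit false

/-!
The number of elements of a set which is mapped into itself by the `3x+k` map and lies in a
window `[m, 3^β m]` with `β < 2`.
-/

namespace Pool.Agent.H621.Osc

/-- the `3x+k` map -/
def T (k x : ℤ) : ℤ := if x % 2 = 0 then x / 2 else (3 * x + k) / 2

/-- the number of odd terms among the first `i` terms of the orbit -/
def odds (k x : ℤ) : ℕ → ℕ
  | 0 => 0
  | i + 1 => odds k x i + if (T k)^[i] x % 2 = 0 then 0 else 1

theorem T_odd {k x : ℤ} (hk : k % 2 = 1) (hx : x % 2 = 1) : 2 * T k x = 3 * x + k := by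
  unfold T
  rw [if_neg (by omega)]
  omega

theorem T_even {k x : ℤ} (hx : x % 2 = 0) : 2 * T k x = x := by
  unfold T
  rw [if_pos hx]
  omega

/-- integers with the same parities for `n` steps are congruent modulo `2^n` -/
theorem dvd_of_parity (k : ℤ) (hk : k % 2 = 1) : ∀ (n : ℕ) (x y : ℤ),
    (∀ i < n, (T k)^[i] x % 2 = (T k)^[i] y % 2) → (2 : ℤ) ^ n ∣ x - y := by
  intro n
  induction n with
  | zero => intro x y _; simp
  | succ n ih =>
    intro x y h
    have h0 : x % 2 = y % 2 := h 0 (Nat.succ_pos n)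
    have h1 : (2 : ℤ) ^ n ∣ T k x - T k y := by
      apply ih
      intro i hi
      have := h (i + 1) (by omega)
      rwa [Function.iterate_succ_apply, Function.iterate_succ_apply] at this
    rcases Int.emod_two_eq_zero_or_one x with hx | hx
    · have ex := T_even (k := k) hx
      have ey := T_even (k := k) (show y % 2 = 0 by omega)
      obtain ⟨c, hc⟩ := h1
      refine ⟨c, ?_⟩
      have : x - y = 2 * (T k x - T k y) := by rw [mul_sub, ex, ey]
      rw [this, hc, pow_succ]; ring
    · have ex := T_odd hk hx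
      have ey := T_odd hk (show y % 2 = 1 by omega)
      obtain ⟨c, hc⟩ := h1
      have h3 : 3 * (x - y) = 2 ^ (n + 1) * c := by
        have : 3 * (x - y) = 2 * (T k x - T k y) := by linarith
        rw [this, hc, pow_succ]; ring
      have hcop : IsCoprime ((2 : ℤ) ^ (n + 1)) 3 := by
        apply IsCoprime.pow_left
        exact ⟨-1, 1, by norm_num⟩
      exact hcop.dvd_of_dvd_mul_left ⟨c, h3⟩

theorem dvd_of_odds (k : ℤ) (hk : k % 2 = 1) (n : ℕ) (x y : ℤ)
    (h : ∀ i, 1 ≤ i → i ≤ n → odds k x i = odds k y i) : (2 : ℤ) ^ n ∣ x - y := by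
  apply dvd_of_parity k hk
  intro i hi
  have h1 := h (i + 1) (by omega) (by omega)
  have h0 : odds k x i = odds k y i := by
    rcases Nat.eq_zero_or_pos i with h2 | h2
    · rw [h2]; rfl
    · exact h i h2 (by omega)
  simp only [odds] at h1
  rw [h0] at h1
  have h2 := Int.emod_two_eq_zero_or_one ((T k)^[i] x)
  have h3 := Int.emod_two_eq_zero_or_one ((T k)^[i] y)
  split_ifs at h1 with a b b
  · rw [a, b]
  · omega
  · omega
  · omega

/-- the size of the iterates -/
theorem log_iter (k x : ℤ) (hk : k % 2 = 1) (ε : ℝ) (hpos : ∀ i, 0 < (T k)^[i] x)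
    (hε : ∀ i, |Real.log (1 + k / (3 * (((T k)^[i] x : ℤ) : ℝ)))| ≤ ε) (n : ℕ) :
    |Real.log (((T k)^[n] x : ℤ) : ℝ) - (Real.log x - n * Real.log 2 + odds k x n * Real.log 3)|
      ≤ n * ε := by
  induction n with
  | zero => simp [odds]
  | succ n ih =>
    set y : ℤ := (T k)^[n] x with hy
    have hy0 : 0 < y := hpos n
    have hy1 : (0 : ℝ) < y := by exact_mod_cast hy0
    have hs : (T k)^[n + 1] x = T k y := by rw [Function.iterate_succ_apply']
    have hs0 : 0 < T k y := by rw [← hs]; exact hpos (n + 1)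
    have hs1 : (0 : ℝ) < (T k y : ℤ) := by exact_mod_cast hs0
    rw [hs]
    have hε0 : 0 ≤ ε := (abs_nonneg _).trans (hε n)
    rcases Int.emod_two_eq_zero_or_one y with h | h
    · have ho : odds k x (n + 1) = odds k x n := by simp [odds, ← hy, h]
      have e : Real.log ((T k y : ℤ) : ℝ) = Real.log y - Real.log 2 := by
        have e1 : (2 : ℝ) * (T k y : ℤ) = y := by exact_mod_cast T_even (k := k) h
        rw [← e1, Real.log_mul (by norm_num) hs1.ne']; ring
      rw [ho, e]
      have : Real.log y - Real.log 2 - (Real.log x - ((n + 1 : ℕ) : ℝ) * Real.log 2 +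
          odds k x n * Real.log 3) = Real.log y - (Real.log x - n * Real.log 2 +
          odds k x n * Real.log 3) := by push_cast; ring
      rw [this]
      refine ih.trans ?_
      push_cast; nlinarith
    · have ho : odds k x (n + 1) = odds k x n + 1 := by
        simp only [odds, ← hy]
        rw [if_neg (by omega)]
      have e1 : (2 : ℝ) * (T k y : ℤ) = 3 * y + k := by exact_mod_cast T_odd hk h
      have e2 : ((T k y : ℤ) : ℝ) = 3 * y / 2 * (1 + k / (3 * y)) := by
        field_simp
        linarith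
      have hq : 0 < 1 + (k : ℝ) / (3 * y) := by
        by_contra hcon
        have : ((T k y : ℤ) : ℝ) ≤ 0 := by
          rw [e2]
          exact mul_nonpos_of_nonneg_of_nonpos (by positivity) (not_lt.1 hcon)
        linarith
      have e : Real.log ((T k y : ℤ) : ℝ) = Real.log y + Real.log 3 - Real.log 2 +
          Real.log (1 + k / (3 * y)) := by
        rw [e2, Real.log_mul (by positivity) hq.ne', Real.log_div (by positivity) (by norm_num),
          Real.log_mul (by norm_num) hy1.ne']
        ring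
      rw [ho, e]
      have e3 : Real.log y + Real.log 3 - Real.log 2 + Real.log (1 + k / (3 * y)) -
          (Real.log x - ((n + 1 : ℕ) : ℝ) * Real.log 2 + ((odds k x n + 1 : ℕ) : ℝ) * Real.log 3) =
          (Real.log y - (Real.log x - n * Real.log 2 + odds k x n * Real.log 3)) +
          Real.log (1 + k / (3 * y)) := by push_cast; ring
      rw [e3]
      refine (abs_add_le _ _).trans ?_
      have := hε n
      rw [← hy] at this
      push_cast
      linarith

/-- the ratio `log 2 / log 3` -/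
noncomputable def al : ℝ := Real.log 2 / Real.log 3

/-- the times at which the rotation by `al` visits a window of length `τ` -/
noncomputable def low (τ : ℝ) (n : ℕ) (X : ℝ) : Finset ℕ :=
  (Finset.Icc 1 n).filter fun i => ⌈(i : ℝ) * al - X⌉ ≤ ⌊(i : ℝ) * al - X + τ⌋

/-- **Count.** -/
theorem card_le (k : ℤ) (hk : k % 2 = 1) (Z : Finset ℤ) (hT : ∀ z ∈ Z, T k z ∈ Z)
    (m β ε τ : ℝ) (n V : ℕ) (hm : 0 < m) (hlo : ∀ z ∈ Z, m ≤ z)
    (hhi : ∀ z ∈ Z, Real.log z ≤ Real.log m + β * Real.log 3)
    (h2 : ∀ z ∈ Z, ∀ z' ∈ Z, |(z : ℝ) - z'| < 2 ^ n)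
    (hε : ∀ z ∈ Z, |Real.log (1 + k / (3 * (z : ℝ)))| ≤ ε * Real.log 3)
    (hβ2 : β ≤ 2) (hτ : β - 1 + 2 * n * ε ≤ τ) (hτ1 : τ < 1)
    (hV : ∀ X : ℝ, (low τ n X).card ≤ V) : Z.card ≤ 2 ^ V * (4 * n + 1) := by
  classical
  have hl3 : 0 < Real.log 3 := Real.log_pos (by norm_num)
  have hiter : ∀ z ∈ Z, ∀ i : ℕ, (T k)^[i] z ∈ Z := by
    intro z hz i
    induction i with
    | zero => exact hz
    | succ i ih => rw [Function.iterate_succ_apply']; exact hT _ ih
  rcases Z.eq_empty_or_nonempty with hZ | ⟨zz, hzz⟩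
  · rw [hZ]; simp
  have hε0 : 0 ≤ ε := by
    have := (abs_nonneg _).trans (hε zz hzz)
    exact nonneg_of_mul_nonneg_left this hl3
  -- the position
  set P : ℤ → ℝ := fun z => (Real.log z - Real.log m) / Real.log 3 + n * ε with hP
  set y : ℤ → ℕ → ℝ := fun z i => (i : ℝ) * al - P z with hy
  have hodds : ∀ z ∈ Z, ∀ i : ℕ, i ≤ n → y z i ≤ odds k z i ∧
      (odds k z i : ℝ) ≤ y z i + 1 + τ := by
    intro z hz i hi
    have h1 := log_iter k z hk (ε * Real.log 3)
      (fun j => by
        have : m ≤ (((T k)^[j] z : ℤ) : ℝ) := hlo _ (hiter z hz j)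
        exact_mod_cast hm.trans_le this)
      (fun j => hε _ (hiter z hz j)) i
    rw [abs_le] at h1
    have hz1 : m ≤ (((T k)^[i] z : ℤ) : ℝ) := hlo _ (hiter z hz i)
    have h3 : Real.log m ≤ Real.log (((T k)^[i] z : ℤ) : ℝ) := Real.log_le_log hm hz1
    have h4 := hhi _ (hiter z hz i)
    have hin : (i : ℝ) * (ε * Real.log 3) ≤ n * ε * Real.log 3 := by
      have : (i : ℝ) ≤ n := by exact_mod_cast hi
      have h5 : 0 ≤ ε * Real.log 3 := by positivity
      nlinarith
    have key1 : (i : ℝ) * Real.log 2 - (Real.log z - Real.log m) - n * ε * Real.log 3 ≤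
        odds k z i * Real.log 3 := by linarith [h1.1, h1.2]
    have key2 : (odds k z i : ℝ) * Real.log 3 ≤ (i : ℝ) * Real.log 2 - (Real.log z - Real.log m) +
        β * Real.log 3 + n * ε * Real.log 3 := by linarith [h1.1, h1.2]
    have hyv : y z i * Real.log 3 =
        (i : ℝ) * Real.log 2 - (Real.log z - Real.log m) - n * ε * Real.log 3 := by
      simp only [hy, hP, al]
      field_simp
      ring
    constructor
    · refine le_of_mul_le_mul_right ?_ hl3
      rw [hyv]; exact key1
    · refine le_of_mul_le_mul_right ?_ hl3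
      have : (y z i + 1 + τ) * Real.log 3 = y z i * Real.log 3 + (1 + τ) * Real.log 3 := by ring
      rw [this, hyv]
      have h6 : (β + n * ε * 2) * Real.log 3 ≤ (1 + τ) * Real.log 3 := by
        apply mul_le_mul_of_nonneg_right _ hl3.le
        linarith
      linarith
  -- the key of the fibres
  set Φ : ℤ → ℤ := fun z => ∑ i ∈ Finset.Icc 1 n, (⌈y z i⌉ + ⌊y z i + τ⌋) with hΦ
  have hmono : ∀ z z' : ℤ, P z ≤ P z' → Φ z = Φ z' →
      ∀ i ∈ Finset.Icc 1 n, ⌈y z i⌉ = ⌈y z' i⌉ ∧ ⌊y z i + τ⌋ = ⌊y z' i + τ⌋ := by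
    intro z z' hPP heq i hi
    have hle : ∀ j : ℕ, y z' j ≤ y z j := by
      intro j; simp only [hy]; linarith
    have hle1 : ∀ j ∈ Finset.Icc 1 n, ⌈y z' j⌉ + ⌊y z' j + τ⌋ ≤ ⌈y z j⌉ + ⌊y z j + τ⌋ := by
      intro j _
      exact add_le_add (Int.ceil_le_ceil (hle j)) (Int.floor_le_floor (by linarith [hle j]))
    have h5 := (Finset.sum_eq_sum_iff_of_le hle1).1 heq.symm i hi
    have h6 : ⌈y z' i⌉ ≤ ⌈y z i⌉ := Int.ceil_le_ceil (hle i)
    have h7 : ⌊y z' i + τ⌋ ≤ ⌊y z i + τ⌋ := Int.floor_le_floor (by linarith [hle i])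
    constructor <;> omega
  have hsame : ∀ z z' : ℤ, Φ z = Φ z' →
      ∀ i ∈ Finset.Icc 1 n, ⌈y z i⌉ = ⌈y z' i⌉ ∧ ⌊y z i + τ⌋ = ⌊y z' i + τ⌋ := by
    intro z z' heq i hi
    rcases le_total (P z) (P z') with h | h
    · exact hmono z z' h heq i hi
    · have := hmono z' z h heq.symm i hi
      exact ⟨this.1.symm, this.2.symm⟩
  -- the image is small
  have himg : (Z.image Φ).card ≤ 4 * n + 1 := by
    set A : ℤ := ∑ i ∈ Finset.Icc 1 n, (⌈(i : ℝ) * al - n * ε⌉ + ⌊(i : ℝ) * al - n * ε + τ⌋) with hA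
    have hsub : Z.image Φ ⊆ Finset.Icc (A - 4 * n) A := by
      intro φ hφ
      rw [Finset.mem_image] at hφ
      obtain ⟨z, hz, rfl⟩ := hφ
      have hz1 : Real.log m ≤ Real.log z := Real.log_le_log hm (hlo z hz)
      have hz2 := hhi z hz
      have hP1 : n * ε ≤ P z := by
        simp only [hP]
        have : 0 ≤ (Real.log z - Real.log m) / Real.log 3 := div_nonneg (by linarith) hl3.le
        linarith
      have hP2 : P z ≤ n * ε + 2 := by
        simp only [hP]
        have : (Real.log z - Real.log m) / Real.log 3 ≤ 2 := by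
          rw [div_le_iff₀ hl3]
          nlinarith
        linarith
      rw [Finset.mem_Icc]
      constructor
      · have h1 : A ≤ ∑ i ∈ Finset.Icc 1 n, ((⌈y z i⌉ + ⌊y z i + τ⌋) + 4) := by
          rw [hA]
          apply Finset.sum_le_sum
          intro i _
          have h2 : ⌈(i : ℝ) * al - n * ε⌉ ≤ ⌈y z i⌉ + 2 := by
            rw [← Int.ceil_add_ofNat]
            apply Int.ceil_le_ceil
            simp only [hy]
            linarith
          have h3 : ⌊(i : ℝ) * al - n * ε + τ⌋ ≤ ⌊y z i + τ⌋ + 2 := by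
            rw [← Int.floor_add_ofNat]
            apply Int.floor_le_floor
            simp only [hy]
            linarith
          linarith
        rw [Finset.sum_add_distrib, Finset.sum_const, Nat.card_Icc, Nat.add_sub_cancel,
          nsmul_eq_mul] at h1
        simp only [hΦ]
        linarith
      · rw [hA]
        simp only [hΦ]
        apply Finset.sum_le_sum
        intro i _
        apply add_le_add
        · apply Int.ceil_le_ceil
          simp only [hy]
          linarith
        · apply Int.floor_le_floor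
          simp only [hy]
          linarith
    refine (Finset.card_le_card hsub).trans ?_
    rw [Int.card_Icc]
    omega
  -- the fibres are small
  have hfib : ∀ b ∈ Z.image Φ, (Z.filter fun z => Φ z = b).card ≤ 2 ^ V := by
    intro b hb
    rw [Finset.mem_image] at hb
    obtain ⟨z0, hz0, rfl⟩ := hb
    set Lo := low τ n (P z0) with hLo
    have hcard : (Lo.powerset).card ≤ 2 ^ V := by
      rw [Finset.card_powerset]
      exact Nat.pow_le_pow_right (by norm_num) (hV _)
    refine le_trans ?_ hcard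
    apply Finset.card_le_card_of_injOn (fun z => Lo.filter fun i => ((odds k z i : ℕ) : ℤ) = ⌈y z0 i⌉ + 1)
    · intro z _
      simp only [Finset.coe_powerset, Set.mem_preimage, Set.mem_powerset_iff, Finset.coe_subset]
      exact Finset.filter_subset _ _
    · intro z hz z' hz' heq
      simp only [Finset.coe_filter, Set.mem_ofPred_eq] at hz hz'
      have hword : ∀ i, 1 ≤ i → i ≤ n → odds k z i = odds k z' i := by
        intro i hi1 hi2
        have himem : i ∈ Finset.Icc 1 n := Finset.mem_Icc.2 ⟨hi1, hi2⟩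
        have e1 := hsame z z0 hz.2 i himem
        have e2 := hsame z' z0 hz'.2 i himem
        have gen : ∀ w ∈ Z, ⌈y w i⌉ = ⌈y z0 i⌉ → ⌊y w i + τ⌋ = ⌊y z0 i + τ⌋ →
            ((odds k w i : ℕ) : ℤ) = ⌈y z0 i⌉ ∨
            (((odds k w i : ℕ) : ℤ) = ⌈y z0 i⌉ + 1 ∧ i ∈ Lo) := by
          intro w hw hc hf
          have ho := hodds w hw i hi2
          have g1 : ⌈y w i⌉ ≤ ((odds k w i : ℕ) : ℤ) := by
            rw [Int.ceil_le]; exact_mod_cast ho.1
          have g2 : ((odds k w i : ℕ) : ℤ) < ⌈y w i⌉ + 2 := by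
            have : ((odds k w i : ℕ) : ℝ) < ⌈y w i⌉ + 2 := by
              have := Int.le_ceil (y w i)
              linarith [ho.2]
            exact_mod_cast this
          rcases (by omega : ((odds k w i : ℕ) : ℤ) = ⌈y w i⌉ ∨
            ((odds k w i : ℕ) : ℤ) = ⌈y w i⌉ + 1) with h | h
          · left; rw [h, hc]
          · right
            refine ⟨by rw [h, hc], ?_⟩
            rw [hLo]
            unfold low
            rw [Finset.mem_filter]
            refine ⟨himem, ?_⟩
            have g3 : ⌈y w i⌉ ≤ ⌊y w i + τ⌋ := by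
              rw [Int.le_floor]
              have : ((odds k w i : ℕ) : ℝ) = ⌈y w i⌉ + 1 := by exact_mod_cast h
              linarith [ho.2]
            rw [hc, hf] at g3
            exact g3
        have a1 := gen z hz.1 e1.1 e1.2
        have a2 := gen z' hz'.1 e2.1 e2.2
        have hiff : (i ∈ Lo ∧ ((odds k z i : ℕ) : ℤ) = ⌈y z0 i⌉ + 1) ↔
            (i ∈ Lo ∧ ((odds k z' i : ℕ) : ℤ) = ⌈y z0 i⌉ + 1) := by
          have := Finset.ext_iff.1 heq i
          simpa [Finset.mem_filter] using this
        rcases a1 with a1 | ⟨a1, b1⟩ <;> rcases a2 with a2 | ⟨a2, b2⟩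
        · have : ((odds k z i : ℕ) : ℤ) = ((odds k z' i : ℕ) : ℤ) := by rw [a1, a2]
          exact_mod_cast this
        · have := (hiff.2 ⟨b2, a2⟩).2
          omega
        · have := (hiff.1 ⟨b1, a1⟩).2
          omega
        · have : ((odds k z i : ℕ) : ℤ) = ((odds k z' i : ℕ) : ℤ) := by rw [a1, a2]
          exact_mod_cast this
      have hdvd := dvd_of_odds k hk n z z' hword
      have hlt := h2 z hz.1 z' hz'.1
      by_contra hne
      have hne' : z - z' ≠ 0 := sub_ne_zero.2 hne
      have := Int.le_of_dvd (abs_pos.2 hne') ((dvd_abs _ _).2 hdvd)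
      have h3 : (2 : ℝ) ^ n ≤ |(z : ℝ) - z'| := by exact_mod_cast this
      linarith
  calc Z.card ≤ 2 ^ V * (Z.image Φ).card := Finset.card_le_mul_card_image Z _ hfib
    _ ≤ 2 ^ V * (4 * n + 1) := Nat.mul_le_mul_left _ himg

end Pool.Agent.H621.Osc
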