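import Mathlib
import Pool.Agent.H621.Osc.Count

set_option autoImplicit false

/-!
Cycles of the `3x+k` map: basic facts, and the linear form in `log 2`, `log 3`.
-/

namespace Pool.Agent.H621.Osc

/-- `Z` is a cycle of the `3x+k` map -/
def IsCycle (k : ℤ) (Z : Finset ℤ) : Prop :=
  ∃ (x : ℤ) (p : ℕ), 1 ≤ p ∧ (T k)^[p] x = x ∧ Z = (Finset.range p).image fun i => (T k)^[i] x

theorem cyc_eq {k : ℤ} {Z : Finset ℤ} (h : IsCycle k Z) : ∀ z ∈ Z,
    1 ≤ Z.card ∧ (T k)^[Z.card] z = z ∧ Z = (Finset.range Z.card).image fun i => (T k)^[i] z := by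
  obtain ⟨x, p, hp, hx, hZ⟩ := h
  have key : ∀ z : ℤ, z ∈ Z → Function.IsPeriodicPt (T k) p z ∧
      ∀ w, w ∈ Z ↔ ∃ i : ℕ, (T k)^[i] z = w := by
    intro z hz
    rw [hZ, Finset.mem_image] at hz
    obtain ⟨j, hj, hjz⟩ := hz
    rw [Finset.mem_range] at hj
    have hper : Function.IsPeriodicPt (T k) p x := hx
    constructor
    · rw [← hjz]
      exact hper.apply_iterate j
    · intro w
      rw [hZ, Finset.mem_image]
      constructor
      · rintro ⟨i, _, hi⟩
        refine ⟨i + (p - j), ?_⟩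
        rw [← hi, ← hjz, ← Function.iterate_add_apply,
          show i + (p - j) + j = i + p by omega, Function.iterate_add_apply, hx]
      · rintro ⟨i, hi⟩
        refine ⟨(i + j) % p, Finset.mem_range.2 (Nat.mod_lt _ (by omega)), ?_⟩
        rw [← hi, ← hjz, ← Function.iterate_add_apply]
        exact hper.iterate_mod_apply (i + j)
  intro z hz
  obtain ⟨hper, hmem⟩ := key z hz
  have hz' : z ∈ Function.periodicPts (T k) := ⟨p, hp, hper⟩
  set n := Function.minimalPeriod (T k) z with hn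
  have hn0 : 0 < n := Function.minimalPeriod_pos_of_mem_periodicPts hz'
  have hZn : Z = (Finset.range n).image fun i => (T k)^[i] z := by
    ext w
    rw [hmem, Finset.mem_image]
    constructor
    · rintro ⟨i, hi⟩
      refine ⟨i % n, Finset.mem_range.2 (Nat.mod_lt _ hn0), ?_⟩
      rw [← hi, hn]
      exact Function.iterate_mod_minimalPeriod_eq
    · rintro ⟨i, _, hi⟩
      exact ⟨i, hi⟩
  have hcard : Z.card = n := by
    rw [hZn, Finset.card_image_of_injOn, Finset.card_range]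
    intro i hi j hj hij
    rw [Finset.coe_range] at hi hj
    exact Function.iterate_injOn_Iio_minimalPeriod hi hj hij
  rw [hcard]
  exact ⟨hn0, Function.isPeriodicPt_minimalPeriod _ _, hZn⟩

theorem cyc_closed {k : ℤ} {Z : Finset ℤ} (h : IsCycle k Z) : ∀ z ∈ Z, T k z ∈ Z := by
  intro z hz
  obtain ⟨h1, h2, h3⟩ := cyc_eq h z hz
  rw [h3, Finset.mem_image]
  refine ⟨1 % Z.card, Finset.mem_range.2 (Nat.mod_lt _ (by omega)), ?_⟩
  have hper : Function.IsPeriodicPt (T k) Z.card z := h2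
  exact hper.iterate_mod_apply 1

theorem cyc_iter {k : ℤ} {Z : Finset ℤ} (h : IsCycle k Z) : ∀ z ∈ Z, ∀ i : ℕ, (T k)^[i] z ∈ Z := by
  intro z hz i
  induction i with
  | zero => exact hz
  | succ i ih => rw [Function.iterate_succ_apply']; exact cyc_closed h _ ih

theorem cyc_nonempty {k : ℤ} {Z : Finset ℤ} (h : IsCycle k Z) : Z.Nonempty := by
  obtain ⟨x, p, hp, _, hZ⟩ := h
  exact ⟨x, by rw [hZ, Finset.mem_image]; exact ⟨0, Finset.mem_range.2 hp, rfl⟩⟩

/-- the linear form of a cycle of positive integers -/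
theorem cyc_form {k : ℤ} (hk : k % 2 = 1) {Z : Finset ℤ} (h : IsCycle k Z) (hpos : ∀ z ∈ Z, 0 < z)
    (ε : ℝ) (hε : ∀ z ∈ Z, |Real.log (1 + k / (3 * (z : ℝ)))| ≤ ε) :
    ∃ o : ℤ, |(Z.card : ℝ) * Real.log 2 - o * Real.log 3| ≤ Z.card * ε := by
  obtain ⟨x, hx⟩ := cyc_nonempty h
  obtain ⟨_, h2, _⟩ := cyc_eq h x hx
  have h1 := log_iter k x hk ε (fun i => hpos _ (cyc_iter h x hx i))
    (fun i => hε _ (cyc_iter h x hx i)) Z.card
  rw [h2] at h1
  refine ⟨odds k x Z.card, ?_⟩
  have e : Real.log x - (Real.log x - (Z.card : ℝ) * Real.log 2 + odds k x Z.card * Real.log 3) =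
      (Z.card : ℝ) * Real.log 2 - ((odds k x Z.card : ℕ) : ℤ) * Real.log 3 := by
    push_cast; ring
  rw [e] at h1
  exact h1

theorem abs_log_le {y : ℝ} (h : |y| < 1) : |Real.log (1 + y)| ≤ |y| / (1 - |y|) := by
  have h1 := abs_lt.1 h
  have hd : 0 < 1 - |y| := by linarith
  rw [abs_le]
  constructor
  · have h2 := Real.one_sub_inv_le_log_of_pos (show 0 < 1 + y by linarith [h1.1])
    refine le_trans ?_ h2
    rw [neg_le, neg_sub, sub_le_iff_le_add, inv_le_comm₀ (by linarith [h1.1]) (by positivity)]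
    have e : (|y| / (1 - |y|) + 1)⁻¹ = 1 - |y| := by
      rw [show |y| / (1 - |y|) + 1 = 1 / (1 - |y|) by field_simp; ring, inv_div, div_one]
    rw [e]
    linarith [neg_abs_le y]
  · have h2 := Real.log_le_sub_one_of_pos (show 0 < 1 + y by linarith [h1.1])
    have h3 : y ≤ |y| := le_abs_self y
    have h4 : |y| ≤ |y| / (1 - |y|) := by
      rw [le_div_iff₀ hd]
      nlinarith [abs_nonneg y]
    linarith

end Pool.Agent.H621.Osc
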