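import Mathlib
import Pool.Agent.H621.Osc.Count

set_option autoImplicit false

/-!
The orbits with small least element: a search through residue classes modulo `2^100`.
-/

namespace Pool.Agent.H621.Osc

/-- does the orbit of `y` leave `[x, 3.28 x]` in the next `f` steps? -/
def exb (k x : ℤ) : ℕ → ℤ → Bool
  | 0, _ => false
  | f + 1, y => decide (T k y < x ∨ 328 * x < 100 * T k y) || exb k x f (T k y)

theorem exb_sound (k x : ℤ) : ∀ (f : ℕ) (y : ℤ), exb k x f y = true →
    ¬ ∀ i : ℕ, x ≤ (T k)^[i] y ∧ 100 * (T k)^[i] y ≤ 328 * x := by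
  intro f
  induction f with
  | zero => intro y h; simp [exb] at h
  | succ f ih =>
    intro y h hw
    rw [exb, Bool.or_eq_true] at h
    rcases h with h | h
    · have h1 := of_decide_eq_true h
      have := hw 1
      simp only [Function.iterate_one] at this
      omega
    · apply ih (T k y) h
      intro i
      have := hw (i + 1)
      rwa [Function.iterate_succ_apply] at this

/-- the search -/
def dfs (k : ℤ) : ℕ → ℤ → ℤ → ℤ → ℤ → Bool
  | 0, r, _, _, _ => exb k r 200 r
  | f + 1, r, y, P3, P2 =>
    (if y % 2 = 0 then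
      (if 2 * P2 ≤ P3 ∧ 100 * P3 ≤ 331 * (2 * P2) then dfs k f r (y / 2) P3 (2 * P2) else true)
    else
      (if 2 * P2 ≤ 3 * P3 ∧ 100 * (3 * P3) ≤ 331 * (2 * P2) then
        dfs k f r ((3 * y + k) / 2) (3 * P3) (2 * P2) else true)) &&
    (if (y + P3) % 2 = 0 then
      (if 2 * P2 ≤ P3 ∧ 100 * P3 ≤ 331 * (2 * P2) then
        dfs k f (r + P2) ((y + P3) / 2) P3 (2 * P2) else true)
    else
      (if 2 * P2 ≤ 3 * P3 ∧ 100 * (3 * P3) ≤ 331 * (2 * P2) then
        dfs k f (r + P2) ((3 * (y + P3) + k) / 2) (3 * P3) (2 * P2) else true))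

theorem dfs_sound (k : ℤ) (hk : k % 2 = 1) (x : ℤ)
    (hwin : ∀ i : ℕ, x ≤ (T k)^[i] x ∧ 100 * (T k)^[i] x ≤ 328 * x) :
    ∀ (f j : ℕ) (r y h : ℤ), 0 ≤ r → 0 ≤ h → x = r + 2 ^ j * h →
      (T k)^[j] x = y + 3 ^ (odds k x j) * h → x < 2 ^ (j + f) →
      (∀ i ≤ j + f, (2 : ℤ) ^ i ≤ 3 ^ (odds k x i) ∧ 100 * 3 ^ (odds k x i) ≤ 331 * (2 : ℤ) ^ i) →
      dfs k f r y (3 ^ (odds k x j)) (2 ^ j) = true → False := by
  intro f
  induction f with
  | zero =>
    intro j r y h hr hh hx _ hlt _ hd
    rw [dfs] at hd
    rw [add_zero] at hlt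
    have hP : (0 : ℤ) < 2 ^ j := by positivity
    have h0 : h = 0 := by
      by_contra hne
      have h1 : 1 ≤ h := by omega
      nlinarith
    rw [h0, mul_zero, add_zero] at hx
    rw [← hx] at hd
    exact exb_sound k x 200 x hd hwin
  | succ f ih =>
    intro j r y h hr hh hx hT hlt hword hd
    rw [dfs, Bool.and_eq_true] at hd
    have hP2 : (2 : ℤ) * 2 ^ j = 2 ^ (j + 1) := by rw [pow_succ]; ring
    have hlt' : x < 2 ^ (j + 1 + f) := by
      rw [show j + 1 + f = j + (f + 1) by ring]; exact hlt
    have hword' : ∀ i ≤ j + 1 + f, (2 : ℤ) ^ i ≤ 3 ^ (odds k x i) ∧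
        100 * 3 ^ (odds k x i) ≤ 331 * (2 : ℤ) ^ i := by
      intro i hi; exact hword i (by omega)
    have hw1 := hword' (j + 1) (by omega)
    have hit : (T k)^[j + 1] x = T k ((T k)^[j] x) := Function.iterate_succ_apply' _ _ _
    have hP3 : (0 : ℤ) < 3 ^ (odds k x j) := by positivity
    have hP2' : (0 : ℤ) < 2 ^ j := by positivity
    obtain ⟨h', hh'⟩ : ∃ h', h = 2 * h' ∨ h = 2 * h' + 1 := ⟨h / 2, by omega⟩
    have hh0 : 0 ≤ h' := by omega
    rcases hh' with hh' | hh'
    · have e1 : (T k)^[j] x = y + 2 * (3 ^ (odds k x j) * h') := by rw [hT, hh']; ring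
      have hx' : x = r + 2 ^ (j + 1) * h' := by rw [hx, hh', pow_succ]; ring
      have hd1 := hd.1
      rcases Int.emod_two_eq_zero_or_one y with hy | hy
      · have hpar : (T k)^[j] x % 2 = 0 := by rw [e1]; omega
        have ho : odds k x (j + 1) = odds k x j := by simp [odds, hpar]
        rw [if_pos hy, ← ho, if_pos ⟨by rw [hP2]; exact hw1.1, by rw [hP2]; exact hw1.2⟩, hP2] at hd1
        refine ih (j + 1) r (y / 2) h' hr hh0 hx' ?_ hlt' hword' hd1
        rw [hit, e1, ho]
        unfold T
        rw [if_pos (by omega)]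
        omega
      · have hpar : (T k)^[j] x % 2 = 1 := by rw [e1]; omega
        have ho : odds k x (j + 1) = odds k x j + 1 := by
          simp only [odds]; rw [if_neg (by omega)]
        have h3 : (3 : ℤ) * 3 ^ (odds k x j) = 3 ^ (odds k x (j + 1)) := by
          rw [ho, pow_succ]; ring
        rw [if_neg (by omega), h3, if_pos ⟨by rw [hP2]; exact hw1.1, by rw [hP2]; exact hw1.2⟩,
          hP2] at hd1
        refine ih (j + 1) r ((3 * y + k) / 2) h' hr hh0 hx' ?_ hlt' hword' hd1
        rw [hit, e1, ← h3]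
        unfold T
        rw [if_neg (by omega)]
        have : 3 * 3 ^ (odds k x j) * h' = 3 * (3 ^ (odds k x j) * h') := by ring
        rw [this]
        generalize 3 ^ (odds k x j) * h' = w
        omega
    · have e1 : (T k)^[j] x = (y + 3 ^ (odds k x j)) + 2 * (3 ^ (odds k x j) * h') := by
        rw [hT, hh']; ring
      have hx' : x = (r + 2 ^ j) + 2 ^ (j + 1) * h' := by rw [hx, hh', pow_succ]; ring
      have hd1 := hd.2
      have hr' : 0 ≤ r + 2 ^ j := by omega
      rcases Int.emod_two_eq_zero_or_one (y + 3 ^ (odds k x j)) with hy | hy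
      · have hpar : (T k)^[j] x % 2 = 0 := by rw [e1]; omega
        have ho : odds k x (j + 1) = odds k x j := by simp [odds, hpar]
        rw [if_pos hy] at hd1
        rw [if_pos ⟨by rw [hP2, ← ho]; exact hw1.1, by rw [hP2, ← ho]; exact hw1.2⟩, hP2] at hd1
        have hd2 : dfs k f (r + 2 ^ j) ((y + 3 ^ (odds k x j)) / 2) (3 ^ (odds k x (j + 1)))
          (2 ^ (j + 1)) = true := by rw [ho]; exact hd1
        refine ih (j + 1) (r + 2 ^ j) ((y + 3 ^ (odds k x j)) / 2) h' hr' hh0 hx' ?_ hlt' hword' hd2
        rw [hit, e1, ho]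
        unfold T
        rw [if_pos (by omega)]
        omega
      · have hpar : (T k)^[j] x % 2 = 1 := by rw [e1]; omega
        have ho : odds k x (j + 1) = odds k x j + 1 := by
          simp only [odds]; rw [if_neg (by omega)]
        have h3 : (3 : ℤ) * 3 ^ (odds k x j) = 3 ^ (odds k x (j + 1)) := by
          rw [ho, pow_succ]; ring
        rw [if_neg (by omega)] at hd1
        rw [if_pos ⟨by rw [hP2, h3]; exact hw1.1, by rw [hP2, h3]; exact hw1.2⟩, hP2] at hd1
        have hd2 : dfs k f (r + 2 ^ j) ((3 * (y + 3 ^ (odds k x j)) + k) / 2)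
          (3 ^ (odds k x (j + 1))) (2 ^ (j + 1)) = true := by rw [← h3]; exact hd1
        refine ih (j + 1) (r + 2 ^ j) ((3 * (y + 3 ^ (odds k x j)) + k) / 2) h' hr' hh0 hx' ?_
          hlt' hword' hd2
        rw [hit, e1, ← h3]
        unfold T
        rw [if_neg (by omega)]
        have : 3 * 3 ^ (odds k x j) * h' = 3 * (3 ^ (odds k x j) * h') := by ring
        rw [this]
        generalize 3 ^ (odds k x j) * h' = w
        generalize 3 ^ (odds k x j) = v at *
        omega

/-- `1` or `-1` -/
def kk (s : Bool) : ℤ := if s then 1 else -1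

/-- the map on natural numbers -/
def tn (s : Bool) (y : ℕ) : ℕ :=
  bif Nat.beq (y % 2) 0 then y / 2 else bif s then (3 * y + 1) / 2 else (3 * y - 1) / 2

theorem tn_even (s : Bool) {y : ℕ} (h : y % 2 = 0) : tn s y = y / 2 := by
  unfold tn
  rw [h]; rfl

theorem tn_odd (s : Bool) {y : ℕ} (h : y % 2 = 1) :
    ((tn s y : ℕ) : ℤ) = (3 * (y : ℤ) + kk s) / 2 := by
  unfold tn kk
  rw [h]
  cases s
  · simp only [show Nat.beq 1 0 = false from rfl, cond_false]
    simp only [Bool.false_eq_true, if_false]
    omega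
  · simp only [show Nat.beq 1 0 = false from rfl, cond_false, cond_true, if_true]
    omega

theorem T_cast (s : Bool) (y : ℕ) : T (kk s) (y : ℤ) = (tn s y : ℕ) := by
  unfold T
  rcases Nat.mod_two_eq_zero_or_one y with h | h
  · rw [if_pos (by omega), tn_even s h]; norm_num
  · rw [if_neg (by omega), tn_odd s h]

def exn (s : Bool) (x : ℕ) : ℕ → ℕ → Bool
  | 0, _ => false
  | f + 1, y => Nat.ble (tn s y + 1) x || (Nat.ble (328 * x + 1) (100 * tn s y) || exn s x f (tn s y))

theorem exn_imp (s : Bool) (x : ℕ) : ∀ (f y : ℕ), exn s x f y = true →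
    exb (kk s) (x : ℤ) f (y : ℤ) = true := by
  intro f
  induction f with
  | zero => intro y h; simp [exn] at h
  | succ f ih =>
    intro y h
    rw [exn, Bool.or_eq_true, Bool.or_eq_true] at h
    rw [exb, Bool.or_eq_true, T_cast]
    rcases h with h | h | h
    · left
      have := Nat.le_of_ble_eq_true h
      apply decide_eq_true
      left; omega
    · left
      have := Nat.le_of_ble_eq_true h
      apply decide_eq_true
      right; omega
    · right
      exact ih _ h

def dfsn (s : Bool) : ℕ → ℕ → ℕ → ℕ → ℕ → Bool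
  | 0, r, _, _, _ => exn s r 200 r
  | f + 1, r, y, P3, P2 =>
    (bif Nat.beq (y % 2) 0 then
      (bif Nat.ble (2 * P2) P3 && Nat.ble (100 * P3) (331 * (2 * P2)) then
        dfsn s f r (tn s y) P3 (2 * P2) else true)
    else
      (bif Nat.ble (2 * P2) (3 * P3) && Nat.ble (100 * (3 * P3)) (331 * (2 * P2)) then
        dfsn s f r (tn s y) (3 * P3) (2 * P2) else true)) &&
    (bif Nat.beq ((y + P3) % 2) 0 then
      (bif Nat.ble (2 * P2) P3 && Nat.ble (100 * P3) (331 * (2 * P2)) then
        dfsn s f (r + P2) (tn s (y + P3)) P3 (2 * P2) else true)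
    else
      (bif Nat.ble (2 * P2) (3 * P3) && Nat.ble (100 * (3 * P3)) (331 * (2 * P2)) then
        dfsn s f (r + P2) (tn s (y + P3)) (3 * P3) (2 * P2) else true))

theorem ble_and_iff (a b c d : ℕ) : (Nat.ble a b && Nat.ble c d) = true ↔
    ((a : ℤ) ≤ b ∧ (c : ℤ) ≤ d) := by
  rw [Bool.and_eq_true, Nat.ble_eq, Nat.ble_eq]
  norm_cast

theorem dfsn_imp (s : Bool) : ∀ (f r y P3 P2 : ℕ), dfsn s f r y P3 P2 = true →
    dfs (kk s) f (r : ℤ) (y : ℤ) (P3 : ℤ) (P2 : ℤ) = true := by
  intro f
  induction f with
  | zero =>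
    intro r y P3 P2 h
    rw [dfs]
    rw [dfsn] at h
    exact exn_imp s r 200 r h
  | succ f ih =>
    intro r y P3 P2 h
    rw [dfsn, Bool.and_eq_true] at h
    rw [dfs, Bool.and_eq_true]
    obtain ⟨h1, h2⟩ := h
    constructor
    · rcases Nat.mod_two_eq_zero_or_one y with hy | hy
      · rw [if_pos (by omega)]
        rw [hy, show Nat.beq 0 0 = true from rfl, cond_true] at h1
        split_ifs with hc
        · have hb : (Nat.ble (2 * P2) P3 && Nat.ble (100 * P3) (331 * (2 * P2))) = true := by
            rw [ble_and_iff]; push_cast; exact hc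
          rw [hb, cond_true] at h1
          have := ih _ _ _ _ h1
          rw [tn_even s hy] at this
          push_cast at this
          exact this
        · rfl
      · rw [if_neg (by omega)]
        rw [hy, show Nat.beq 1 0 = false from rfl, cond_false] at h1
        split_ifs with hc
        · have hb : (Nat.ble (2 * P2) (3 * P3) && Nat.ble (100 * (3 * P3)) (331 * (2 * P2))) = true := by
            rw [ble_and_iff]; push_cast; exact hc
          rw [hb, cond_true] at h1
          have := ih _ _ _ _ h1
          rw [tn_odd s hy] at this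
          push_cast at this
          exact this
        · rfl
    · rcases Nat.mod_two_eq_zero_or_one (y + P3) with hy | hy
      · rw [if_pos (by omega)]
        rw [hy, show Nat.beq 0 0 = true from rfl, cond_true] at h2
        split_ifs with hc
        · have hb : (Nat.ble (2 * P2) P3 && Nat.ble (100 * P3) (331 * (2 * P2))) = true := by
            rw [ble_and_iff]; push_cast; exact hc
          rw [hb, cond_true] at h2
          have := ih _ _ _ _ h2
          rw [tn_even s hy] at this
          push_cast at this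
          exact this
        · rfl
      · rw [if_neg (by omega)]
        rw [hy, show Nat.beq 1 0 = false from rfl, cond_false] at h2
        split_ifs with hc
        · have hb : (Nat.ble (2 * P2) (3 * P3) && Nat.ble (100 * (3 * P3)) (331 * (2 * P2))) = true := by
            rw [ble_and_iff]; push_cast; exact hc
          rw [hb, cond_true] at h2
          have := ih _ _ _ _ h2
          rw [tn_odd s hy] at this
          push_cast at this
          exact this
        · rfl

set_option maxRecDepth 1000000 in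
theorem dfsn_pos : dfsn true 100 0 0 1 1 = true := by decide +kernel

set_option maxRecDepth 1000000 in
theorem dfsn_neg : dfsn false 100 0 0 1 1 = true := by decide +kernel

theorem dfs_ok (s : Bool) : dfs (kk s) 100 0 0 1 1 = true := by
  have := dfsn_imp s 100 0 0 1 1 (by cases s; exact dfsn_neg; exact dfsn_pos)
  push_cast at this
  exact this

/-- the small integers -/
def smalln (s : Bool) : ℕ → Bool
  | 0 => true
  | n + 1 => (exn s (n + 1) 40 (n + 1) || (Nat.beq n 0 || (Nat.beq n 4 && !s))) && smalln s n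

theorem small_sound (s : Bool) : ∀ n : ℕ, smalln s n = true → ∀ x : ℤ, 1 ≤ x → x ≤ n →
    (∀ i : ℕ, x ≤ (T (kk s))^[i] x ∧ 100 * (T (kk s))^[i] x ≤ 328 * x) →
    x = 1 ∨ (x = 5 ∧ kk s = -1) := by
  intro n
  induction n with
  | zero => intro _ x h1 h2; omega
  | succ n ih =>
    intro h x h1 h2 hw
    rw [smalln, Bool.and_eq_true] at h
    rcases eq_or_ne x ((n : ℤ) + 1) with h3 | h3
    · have h4 := h.1
      rw [Bool.or_eq_true, Bool.or_eq_true, Bool.and_eq_true] at h4
      rcases h4 with h4 | h4 | h4
      · have h5 := exn_imp s (n + 1) 40 (n + 1) h4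
        push_cast at h5
        rw [← h3] at h5
        exact absurd hw (exb_sound (kk s) x 40 x h5)
      · have := Nat.eq_of_beq_eq_true h4
        left; omega
      · have := Nat.eq_of_beq_eq_true h4.1
        right
        refine ⟨by omega, ?_⟩
        have h5 := h4.2
        unfold kk
        cases s
        · rfl
        · simp at h5
    · exact ih h.2 x h1 (by push_cast at h2; omega) hw

set_option maxRecDepth 1000000 in
theorem smalln_pos : smalln true 10000 = true := by decide +kernel

set_option maxRecDepth 1000000 in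
theorem smalln_neg : smalln false 10000 = true := by decide +kernel

end Pool.Agent.H621.Osc
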