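import Mathlib

set_option autoImplicit false

/-!
An explicit Chebyshev bound: `lcm (1, ..., n) ≤ exp (1.11 n)`.
-/

namespace Pool.Agent.H621.Osc

open Finset Nat

theorem log_eq_sum {p n b : ℕ} (hp : 1 < p) (hn : n ≠ 0) (hb : Nat.log p n < b) :
    Nat.log p n = ∑ i ∈ Ico 1 b, if p ^ i ≤ n then 1 else 0 := by
  rw [← Finset.card_filter]
  have : (Ico 1 b).filter (fun i => p ^ i ≤ n) = Ico 1 (Nat.log p n + 1) := by
    ext i
    rw [Finset.mem_filter, Finset.mem_Ico, Finset.mem_Ico]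
    constructor
    · rintro ⟨⟨h1, _⟩, h3⟩
      exact ⟨h1, Nat.lt_succ_of_le ((Nat.le_log_iff_pow_le hp hn).2 h3)⟩
    · rintro ⟨h1, h2⟩
      exact ⟨⟨h1, by omega⟩, (Nat.le_log_iff_pow_le hp hn).1 (Nat.le_of_lt_succ h2)⟩
  rw [this, Nat.card_Ico, Nat.add_sub_cancel]

theorem lcm_dvd (k : ℕ) (hk : k ≠ 0) :
    Nat.lcmUpto (30 * k) * ((15 * k)! * (10 * k)! * (6 * k)!) ∣
      Nat.lcmUpto (5 * k) * ((30 * k)! * k !) := by
  have hl1 := Nat.lcmUpto_ne_zero (30 * k)
  have hl2 := Nat.lcmUpto_ne_zero (5 * k)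
  have f15 := Nat.factorial_ne_zero (15 * k)
  have f10 := Nat.factorial_ne_zero (10 * k)
  have f6 := Nat.factorial_ne_zero (6 * k)
  have f30 := Nat.factorial_ne_zero (30 * k)
  have f1 := Nat.factorial_ne_zero k
  rw [← Nat.factorization_prime_le_iff_dvd (by positivity) (by positivity)]
  intro p hp
  rw [Nat.factorization_mul hl1 (by positivity), Nat.factorization_mul (by positivity) f6,
    Nat.factorization_mul f15 f10, Nat.factorization_mul hl2 (by positivity),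
    Nat.factorization_mul f30 f1]
  simp only [Finsupp.coe_add, Pi.add_apply]
  set b := Nat.log p (30 * k) + 1 with hb
  have hb0 : Nat.log p (30 * k) < b := Nat.lt_succ_self _
  have hmono : ∀ c : ℕ, c ≤ 30 * k → Nat.log p c < b := fun c hc =>
    lt_of_le_of_lt (Nat.log_mono_right hc) hb0
  rw [Nat.factorization_lcmUpto _ hp, Nat.factorization_lcmUpto _ hp,
    Nat.factorization_factorial hp (hmono (15 * k) (by omega)),
    Nat.factorization_factorial hp (hmono (10 * k) (by omega)),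
    Nat.factorization_factorial hp (hmono (6 * k) (by omega)),
    Nat.factorization_factorial hp (hmono (30 * k) (by omega)),
    Nat.factorization_factorial hp (hmono k (by omega)),
    log_eq_sum hp.one_lt (by omega) hb0, log_eq_sum hp.one_lt (by omega) (hmono (5 * k) (by omega)),
    ← Finset.sum_add_distrib, ← Finset.sum_add_distrib, ← Finset.sum_add_distrib,
    ← Finset.sum_add_distrib, ← Finset.sum_add_distrib]
  apply Finset.sum_le_sum
  intro i _
  set q := p ^ i with hq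
  have hq0 : 0 < q := pow_pos hp.pos i
  have e15 : 15 * k / q = 30 * k / q / 2 := by
    rw [Nat.div_div_eq_div_mul, mul_comm q 2, ← Nat.div_div_eq_div_mul]
    congr 1; omega
  have e10 : 10 * k / q = 30 * k / q / 3 := by
    rw [Nat.div_div_eq_div_mul, mul_comm q 3, ← Nat.div_div_eq_div_mul]
    congr 1; omega
  have e6 : 6 * k / q = 30 * k / q / 5 := by
    rw [Nat.div_div_eq_div_mul, mul_comm q 5, ← Nat.div_div_eq_div_mul]
    congr 1; omega
  have e1 : k / q = 30 * k / q / 30 := by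
    rw [Nat.div_div_eq_div_mul, mul_comm q 30, ← Nat.div_div_eq_div_mul]
    congr 1; omega
  have h5 : (q ≤ 5 * k) ↔ 6 ≤ 30 * k / q := by
    rw [Nat.le_div_iff_mul_le hq0]; omega
  have h30 : (q ≤ 30 * k) ↔ 1 ≤ 30 * k / q := by
    rw [Nat.le_div_iff_mul_le hq0]; omega
  rw [e15, e10, e6, e1]
  simp only [h5, h30]
  generalize 30 * k / q = s
  split_ifs <;> omega

/-- `30^30 / (15^15 10^10 6^6)` -/
def R : ℕ := 2 ^ 14 * 3 ^ 9 * 5 ^ 5

theorem fact_le (k : ℕ) : (30 * k)! * k ! ≤ (15 * k)! * (10 * k)! * (6 * k)! * R ^ k := by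
  induction k with
  | zero => simp
  | succ k ih =>
    have e30 : (30 * (k + 1))! = (30 * k)! * ((30*k+1)*(30*k+2)*(30*k+3)*(30*k+4)*(30*k+5)*(30*k+6)*
        (30*k+7)*(30*k+8)*(30*k+9)*(30*k+10)*(30*k+11)*(30*k+12)*(30*k+13)*(30*k+14)*(30*k+15)*
        (30*k+16)*(30*k+17)*(30*k+18)*(30*k+19)*(30*k+20)*(30*k+21)*(30*k+22)*(30*k+23)*(30*k+24)*
        (30*k+25)*(30*k+26)*(30*k+27)*(30*k+28)*(30*k+29)*(30*k+30)) := by
      rw [show 30 * (k + 1) = 30 * k + 30 by ring]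
      simp only [Nat.factorial_succ]
      ring
    have e15 : (15 * (k + 1))! = (15 * k)! * ((15*k+1)*(15*k+2)*(15*k+3)*(15*k+4)*(15*k+5)*(15*k+6)*
        (15*k+7)*(15*k+8)*(15*k+9)*(15*k+10)*(15*k+11)*(15*k+12)*(15*k+13)*(15*k+14)*(15*k+15)) := by
      rw [show 15 * (k + 1) = 15 * k + 15 by ring]
      simp only [Nat.factorial_succ]
      ring
    have e10 : (10 * (k + 1))! = (10 * k)! * ((10*k+1)*(10*k+2)*(10*k+3)*(10*k+4)*(10*k+5)*(10*k+6)*
        (10*k+7)*(10*k+8)*(10*k+9)*(10*k+10)) := by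
      rw [show 10 * (k + 1) = 10 * k + 10 by ring]
      simp only [Nat.factorial_succ]
      ring
    have e6 : (6 * (k + 1))! = (6 * k)! * ((6*k+1)*(6*k+2)*(6*k+3)*(6*k+4)*(6*k+5)*(6*k+6)) := by
      rw [show 6 * (k + 1) = 6 * k + 6 by ring]
      simp only [Nat.factorial_succ]
      ring
    have main : (30*k+1)*(30*k+7)*(30*k+11)*(30*k+13)*(30*k+17)*(30*k+19)*(30*k+23)*(30*k+29) ≤
        (30*k+6)*(30*k+10)*(30*k+12)*(30*k+15)*(30*k+18)*(30*k+20)*(30*k+24)*(30*k+30) := by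
      gcongr <;> norm_num
    rw [e30, e15, e10, e6, Nat.factorial_succ, pow_succ]
    have comb := Nat.mul_le_mul ih main
    -- the common factor
    set W : ℕ := (30*k+2)*(30*k+3)*(30*k+4)*(30*k+5)*(30*k+6)*
        (30*k+8)*(30*k+9)*(30*k+10)*(30*k+12)*(30*k+14)*(30*k+15)*
        (30*k+16)*(30*k+18)*(30*k+20)*(30*k+21)*(30*k+22)*(30*k+24)*
        (30*k+25)*(30*k+26)*(30*k+27)*(30*k+28)*(30*k+30) * (k + 1) with hW
    have hL : (30 * k)! * ((30*k+1)*(30*k+2)*(30*k+3)*(30*k+4)*(30*k+5)*(30*k+6)*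
        (30*k+7)*(30*k+8)*(30*k+9)*(30*k+10)*(30*k+11)*(30*k+12)*(30*k+13)*(30*k+14)*(30*k+15)*
        (30*k+16)*(30*k+17)*(30*k+18)*(30*k+19)*(30*k+20)*(30*k+21)*(30*k+22)*(30*k+23)*(30*k+24)*
        (30*k+25)*(30*k+26)*(30*k+27)*(30*k+28)*(30*k+29)*(30*k+30)) * ((k + 1) * k !) =
        ((30 * k)! * k ! * ((30*k+1)*(30*k+7)*(30*k+11)*(30*k+13)*(30*k+17)*(30*k+19)*(30*k+23)*
          (30*k+29))) * W := by
      rw [hW]; ac_rfl
    rw [hL]
    refine (Nat.mul_le_mul_right W comb).trans (le_of_eq ?_)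
    rw [hW]
    unfold R
    ring

theorem lcm_step (k : ℕ) (hk : k ≠ 0) :
    Nat.lcmUpto (30 * k) ≤ Nat.lcmUpto (5 * k) * R ^ k := by
  have h1 := Nat.le_of_dvd (Nat.mul_pos (Nat.lcmUpto_pos _)
    (Nat.mul_pos (Nat.factorial_pos _) (Nat.factorial_pos _))) (lcm_dvd k hk)
  have h2 := fact_le k
  have hD : 0 < (15 * k)! * (10 * k)! * (6 * k)! := by positivity
  refine Nat.le_of_mul_le_mul_right ?_ hD
  calc Nat.lcmUpto (30 * k) * ((15 * k)! * (10 * k)! * (6 * k)!)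
      ≤ Nat.lcmUpto (5 * k) * ((30 * k)! * k !) := h1
    _ ≤ Nat.lcmUpto (5 * k) * ((15 * k)! * (10 * k)! * (6 * k)! * R ^ k) :=
        Nat.mul_le_mul_left _ h2
    _ = _ := by ring

theorem lcmUpto_succ (n : ℕ) : Nat.lcmUpto (n + 1) = Nat.lcm (Nat.lcmUpto n) (n + 1) := by
  unfold Nat.lcmUpto
  have : Icc 1 (n + 1) = insert (n + 1) (Icc 1 n) := by
    ext i; simp only [Finset.mem_Icc, Finset.mem_insert]; omega
  rw [this, Finset.lcm_insert]
  simp only [id]
  rw [lcm_eq_nat_lcm, Nat.lcm_comm]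

/-- the check of the bound for small `n` -/
def chk : ℕ → ℕ → ℕ → Bool
  | 0, _, _ => true
  | f + 1, n, acc =>
    Nat.ble (Nat.lcm acc (n + 1)) (2 ^ (1597 * (n + 1) / 1000)) && chk f (n + 1) (Nat.lcm acc (n + 1))

theorem chk_sound : ∀ (f n : ℕ), chk f n (Nat.lcmUpto n) = true → ∀ j, n < j → j ≤ n + f →
    Nat.lcmUpto j ≤ 2 ^ (1597 * j / 1000) := by
  intro f
  induction f with
  | zero => intro n _ j h1 h2; omega
  | succ f ih =>
    intro n h j h1 h2
    rw [chk, Bool.and_eq_true, ← lcmUpto_succ] at h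
    rcases eq_or_lt_of_le (Nat.succ_le_of_lt h1) with h3 | h3
    · rw [← h3]
      exact Nat.le_of_ble_eq_true h.1
    · exact ih (n + 1) h.2 j h3 (by omega)

theorem chk_all : chk 17600 0 1 = true := by decide +kernel

theorem small (j : ℕ) (h1 : j ≤ 17600) : Nat.lcmUpto j ≤ 2 ^ (1597 * j / 1000) := by
  rcases Nat.eq_zero_or_pos j with h | h
  · subst h; simp [Nat.lcmUpto]
  · exact chk_sound 17600 0 (by simpa [Nat.lcmUpto] using chk_all) j h (by omega)

theorem small_log (j : ℕ) (h1 : j ≤ 17600) : Real.log (Nat.lcmUpto j) ≤ 1.1075 * j := by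
  have h2 : (Nat.lcmUpto j : ℝ) ≤ 2 ^ (1597 * j / 1000) := by exact_mod_cast small j h1
  have h3 : (0 : ℝ) < Nat.lcmUpto j := by exact_mod_cast Nat.lcmUpto_pos j
  have h4 := Real.log_le_log h3 h2
  rw [Real.log_pow] at h4
  have h5 : ((1597 * j / 1000 : ℕ) : ℝ) ≤ 1.597 * j := by
    have : ((1597 * j / 1000 : ℕ) : ℝ) ≤ ((1597 * j : ℕ) : ℝ) / ((1000 : ℕ) : ℝ) := Nat.cast_div_le
    push_cast at this
    linarith
  have h6 := Real.log_two_lt_d9
  have h7 : 0 < Real.log 2 := Real.log_pos (by norm_num)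
  have h8 : (0 : ℝ) ≤ j := Nat.cast_nonneg j
  nlinarith

set_option exponentiation.threshold 2000 in
theorem log_R_le : Real.log R ≤ 27.64 := by
  have h1 : (R : ℝ) ^ 25 ≤ (2.7182818283 : ℝ) ^ 691 := by
    unfold R
    norm_num
  have h2 : (2.7182818283 : ℝ) ^ 691 ≤ Real.exp 1 ^ 691 :=
    pow_le_pow_left₀ (by norm_num) Real.exp_one_gt_d9.le 691
  have h3 : (0 : ℝ) < R := by unfold R; norm_num
  have h4 := Real.log_le_log (by positivity) (h1.trans h2)
  rw [Real.log_pow, Real.log_pow, Real.log_exp] at h4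
  push_cast at h4
  linarith

theorem log_lcm_mono {a b : ℕ} (h : a ≤ b) :
    Real.log (Nat.lcmUpto a) ≤ Real.log (Nat.lcmUpto b) := by
  rw [← Chebyshev.psi_eq_log_lcmUpto, ← Chebyshev.psi_eq_log_lcmUpto]
  exact Chebyshev.psi_mono (by exact_mod_cast h)

theorem log_lcm_30 (k : ℕ) : Real.log (Nat.lcmUpto (30 * k)) ≤ 33.225 * k := by
  induction k using Nat.strong_induction_on with
  | _ k ih =>
    rcases Nat.lt_or_ge k 586 with h | h
    · have := small_log (30 * k) (by omega)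
      push_cast at this
      linarith
    · have h1 : (Nat.lcmUpto (30 * k) : ℝ) ≤ Nat.lcmUpto (5 * k) * (R : ℝ) ^ k := by
        exact_mod_cast lcm_step k (by omega)
      have h0 : (0 : ℝ) < Nat.lcmUpto (30 * k) := by exact_mod_cast Nat.lcmUpto_pos _
      have h0' : (0 : ℝ) < Nat.lcmUpto (5 * k) := by exact_mod_cast Nat.lcmUpto_pos _
      have hR : (0 : ℝ) < R := by unfold R; norm_num
      have h2 := Real.log_le_log h0 h1
      rw [Real.log_mul h0'.ne' (by positivity), Real.log_pow] at h2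
      have h3 : Real.log (Nat.lcmUpto (5 * k)) ≤ Real.log (Nat.lcmUpto (30 * ((k + 5) / 6))) :=
        log_lcm_mono (by omega)
      have h4 := ih ((k + 5) / 6) (by omega)
      have h5 : (((k + 5) / 6 : ℕ) : ℝ) ≤ (k + 5) / 6 := by
        have : (((k + 5) / 6 : ℕ) : ℝ) ≤ ((k + 5 : ℕ) : ℝ) / ((6 : ℕ) : ℝ) := Nat.cast_div_le
        push_cast at this
        exact this
      have h6 := log_R_le
      have h7 : (586 : ℝ) ≤ k := by exact_mod_cast h
      nlinarith

/-- **Explicit Chebyshev bound.** -/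
theorem log_lcm_le (n : ℕ) : Real.log (Nat.lcmUpto n) ≤ 1.11 * n := by
  rcases Nat.lt_or_ge n 17600 with h | h
  · have := small_log n h.le
    have h8 : (0 : ℝ) ≤ n := Nat.cast_nonneg n
    linarith
  · have h1 : Real.log (Nat.lcmUpto n) ≤ Real.log (Nat.lcmUpto (30 * ((n + 29) / 30))) :=
      log_lcm_mono (by omega)
    have h2 := log_lcm_30 ((n + 29) / 30)
    have h5 : (((n + 29) / 30 : ℕ) : ℝ) ≤ (n + 29) / 30 := by
      have : (((n + 29) / 30 : ℕ) : ℝ) ≤ ((n + 29 : ℕ) : ℝ) / ((30 : ℕ) : ℝ) := Nat.cast_div_le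
      push_cast at this
      exact this
    have h7 : (17600 : ℝ) ≤ n := by exact_mod_cast h
    linarith

theorem lcm_le_exp (n : ℕ) : (Nat.lcmUpto n : ℝ) ≤ Real.exp (1.11 * n) := by
  rw [← Real.log_le_iff_le_exp (by exact_mod_cast Nat.lcmUpto_pos n)]
  exact log_lcm_le n

end Pool.Agent.H621.Osc
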