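import Mathlib
import Pool.Graph.R_seed8.H319R2.Int1
import Pool.Graph.R_seed8.H319R2.Poly689

set_option autoImplicit false

/-!
The polynomials `(X-6)^a (X-8)^b (X-9)^c (5X-36)^d`.
-/

namespace Pool.Agent.H621.Osc

open Polynomial Finset
open Pool.Agent.H319R2 (dvd_of_comp coeff_nonneg_mul coeff_nonneg_pow coeff_nonneg_lin coeff_le_eval)

/-- `(X-6)^a (X-8)^b (X-9)^c (5X-36)^d` -/
noncomputable def FG (a b c d : ℕ) : ℤ[X] :=
  (X - C 6) ^ a * (X - C 8) ^ b * (X - C 9) ^ c * (C 5 * X - C 36) ^ d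

theorem lin_ne : (C 5 * X - C 36 : ℤ[X]) ≠ 0 := by
  intro h
  have := congrArg (fun P => P.coeff 1) h
  simp at this

theorem lin_natDegree : (C 5 * X - C 36 : ℤ[X]).natDegree = 1 := by
  rw [natDegree_sub_C, natDegree_C_mul_X _ (by norm_num)]

theorem FG_natDegree (a b c d : ℕ) : (FG a b c d).natDegree = a + b + c + d := by
  unfold FG
  have h6 : (X - C 6 : ℤ[X]) ^ a ≠ 0 := pow_ne_zero _ (X_sub_C_ne_zero 6)
  have h8 : (X - C 8 : ℤ[X]) ^ b ≠ 0 := pow_ne_zero _ (X_sub_C_ne_zero 8)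
  have h9 : (X - C 9 : ℤ[X]) ^ c ≠ 0 := pow_ne_zero _ (X_sub_C_ne_zero 9)
  have h5 : (C 5 * X - C 36 : ℤ[X]) ^ d ≠ 0 := pow_ne_zero _ lin_ne
  rw [natDegree_mul (mul_ne_zero (mul_ne_zero h6 h8) h9) h5, natDegree_mul (mul_ne_zero h6 h8) h9,
    natDegree_mul h6 h8, natDegree_pow, natDegree_pow, natDegree_pow, natDegree_pow,
    natDegree_X_sub_C, natDegree_X_sub_C, natDegree_X_sub_C, lin_natDegree]
  ring

theorem FG_eval (a b c d : ℕ) (x : ℝ) : ((FG a b c d).map (Int.castRingHom ℝ)).eval x =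
    (x - 6) ^ a * (x - 8) ^ b * (x - 9) ^ c * (5 * x - 36) ^ d := by
  unfold FG
  simp [Polynomial.map_mul, Polynomial.map_pow, Polynomial.map_sub]

theorem dvd9 (a b c d n : ℕ) (h : 2 * n ≤ a + 2 * c + 2 * d) (j : ℕ) :
    (9 : ℤ) ^ n ∣ (FG a b c d).coeff j * 9 ^ j := by
  have h1 : (FG a b c d).comp (C 9 * X) = C ((3 : ℤ) ^ (a + 2 * c + 2 * d)) *
      ((C 3 * X - C 2) ^ a * (C 9 * X - C 8) ^ b * (X - C 1) ^ c * (C 5 * X - C 4) ^ d) := by
    unfold FG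
    simp only [mul_comp, pow_comp, sub_comp, X_comp, C_comp]
    have e1 : (C 9 * X - C 6 : ℤ[X]) = C 3 * (C 3 * X - C 2) := by
      rw [mul_sub, ← mul_assoc, ← C_mul, ← C_mul]; norm_num
    have e2 : (C 9 * X - C 9 : ℤ[X]) = C 9 * (X - C 1) := by
      rw [mul_sub, ← C_mul]; norm_num
    have e3 : (C 5 * (C 9 * X) - C 36 : ℤ[X]) = C 9 * (C 5 * X - C 4) := by
      rw [mul_sub, ← mul_assoc, ← mul_assoc, ← C_mul, ← C_mul, ← C_mul]; norm_num
    rw [e1, e2, e3, mul_pow, mul_pow, mul_pow, pow_add, pow_add, pow_mul, pow_mul, C_mul, C_mul,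
      C_pow, C_pow, C_pow]
    norm_num
    ring
  have h2 := dvd_of_comp _ _ _ _ h1 j
  refine dvd_trans ?_ h2
  rw [show (9 : ℤ) = 3 ^ 2 by norm_num, ← pow_mul]
  exact pow_dvd_pow _ h

theorem dvd8 (a b c d n : ℕ) (h : 3 * n ≤ a + 3 * b + 2 * d) (j : ℕ) :
    (8 : ℤ) ^ n ∣ (FG a b c d).coeff j * 8 ^ j := by
  have h1 : (FG a b c d).comp (C 8 * X) = C ((2 : ℤ) ^ (a + 3 * b + 2 * d)) *
      ((C 4 * X - C 3) ^ a * (X - C 1) ^ b * (C 8 * X - C 9) ^ c * (C 10 * X - C 9) ^ d) := by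
    unfold FG
    simp only [mul_comp, pow_comp, sub_comp, X_comp, C_comp]
    have e1 : (C 8 * X - C 6 : ℤ[X]) = C 2 * (C 4 * X - C 3) := by
      rw [mul_sub, ← mul_assoc, ← C_mul, ← C_mul]; norm_num
    have e2 : (C 8 * X - C 8 : ℤ[X]) = C 8 * (X - C 1) := by
      rw [mul_sub, ← C_mul]; norm_num
    have e3 : (C 5 * (C 8 * X) - C 36 : ℤ[X]) = C 4 * (C 10 * X - C 9) := by
      rw [mul_sub, ← mul_assoc, ← mul_assoc, ← C_mul, ← C_mul, ← C_mul]; norm_num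
    rw [e1, e2, e3, mul_pow, mul_pow, mul_pow, pow_add, pow_add, pow_mul, pow_mul, C_mul, C_mul,
      C_pow, C_pow, C_pow]
    norm_num
    ring
  have h2 := dvd_of_comp _ _ _ _ h1 j
  refine dvd_trans ?_ h2
  rw [show (8 : ℤ) = 2 ^ 3 by norm_num, ← pow_mul]
  exact pow_dvd_pow _ h

theorem dvd6 (a b c d n : ℕ) (h : n ≤ a + b + d) (h' : n ≤ a + c + d) (j : ℕ) :
    (6 : ℤ) ^ n ∣ (FG a b c d).coeff j * 6 ^ j := by
  have h1 : (FG a b c d).comp (C 6 * X) = C ((2 : ℤ) ^ (a + b + d) * 3 ^ (a + c + d)) *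
      ((X - C 1) ^ a * (C 3 * X - C 4) ^ b * (C 2 * X - C 3) ^ c * (C 5 * X - C 6) ^ d) := by
    unfold FG
    simp only [mul_comp, pow_comp, sub_comp, X_comp, C_comp]
    have e1 : (C 6 * X - C 6 : ℤ[X]) = C 6 * (X - C 1) := by
      rw [mul_sub, ← C_mul]; norm_num
    have e2 : (C 6 * X - C 8 : ℤ[X]) = C 2 * (C 3 * X - C 4) := by
      rw [mul_sub, ← mul_assoc, ← C_mul, ← C_mul]; norm_num
    have e3 : (C 6 * X - C 9 : ℤ[X]) = C 3 * (C 2 * X - C 3) := by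
      rw [mul_sub, ← mul_assoc, ← C_mul, ← C_mul]; norm_num
    have e4 : (C 5 * (C 6 * X) - C 36 : ℤ[X]) = C 6 * (C 5 * X - C 6) := by
      rw [mul_sub, ← mul_assoc, ← mul_assoc, ← C_mul, ← C_mul, ← C_mul]; norm_num
    rw [e1, e2, e3, e4, mul_pow, mul_pow, mul_pow, mul_pow, C_mul, C_pow, C_pow]
    rw [show (C 6 : ℤ[X]) = C 2 * C 3 by rw [← C_mul]; norm_num, mul_pow, mul_pow]
    ring
  have h2 := dvd_of_comp _ _ _ _ h1 j
  refine dvd_trans ?_ h2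
  rw [show (6 : ℤ) = 2 * 3 by norm_num, mul_pow]
  exact mul_dvd_mul (pow_dvd_pow _ h) (pow_dvd_pow _ h')

/-- `(X+6)^a (X+8)^b (X+9)^c (5X+36)^d` over the reals -/
noncomputable def FQ (a b c d : ℕ) : ℝ[X] :=
  (X + C 6) ^ a * (X + C 8) ^ b * (X + C 9) ^ c * (C 5 * (X + C (36 / 5))) ^ d

theorem FQ_coeff_nonneg (a b c d j : ℕ) : 0 ≤ (FQ a b c d).coeff j := by
  unfold FQ
  apply coeff_nonneg_mul
  · apply coeff_nonneg_mul
    · apply coeff_nonneg_mul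
      · exact coeff_nonneg_pow (coeff_nonneg_lin (by norm_num)) a
      · exact coeff_nonneg_pow (coeff_nonneg_lin (by norm_num)) b
    · exact coeff_nonneg_pow (coeff_nonneg_lin (by norm_num)) c
  · apply coeff_nonneg_pow
    intro i
    rw [coeff_C_mul]
    exact mul_nonneg (by norm_num) (coeff_nonneg_lin (by norm_num) i)

/-- relation of the coefficients -/
theorem FG_coeff (a b c d n : ℕ) : ((FG a b c d).coeff n : ℝ) =
    (-1) ^ (a + b + c + d + n) * (FQ a b c d).coeff n := by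
  have h1 : (FG a b c d).map (Int.castRingHom ℝ) = C ((-1) ^ (a + b + c + d)) *
      (FQ a b c d).comp (C (-1) * X) := by
    unfold FG FQ
    simp only [Polynomial.map_mul, Polynomial.map_pow, Polynomial.map_sub, map_X, map_C, mul_comp,
      pow_comp, add_comp, X_comp, C_comp]
    have e1 : (C (-1) * X + C 6 : ℝ[X]) = C (-1) * (X - C 6) := by
      rw [mul_sub, ← C_mul]; norm_num
    have e2 : (C (-1) * X + C 8 : ℝ[X]) = C (-1) * (X - C 8) := by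
      rw [mul_sub, ← C_mul]; norm_num
    have e3 : (C (-1) * X + C 9 : ℝ[X]) = C (-1) * (X - C 9) := by
      rw [mul_sub, ← C_mul]; norm_num
    have e3' : (C 5 * (C (-1) * X + C (36 / 5)) : ℝ[X]) = C (-1) * (C 5 * X - C 36) := by
      rw [mul_add, mul_sub, ← mul_assoc, ← mul_assoc, ← C_mul, ← C_mul, ← C_mul, ← C_mul]; norm_num
    rw [e1, e2, e3, e3', mul_pow, mul_pow, mul_pow, mul_pow]
    have e5 : ((Int.castRingHom ℝ) 6 : ℝ) = 6 := by norm_num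
    have e6 : ((Int.castRingHom ℝ) 8 : ℝ) = 8 := by norm_num
    have e7 : ((Int.castRingHom ℝ) 9 : ℝ) = 9 := by norm_num
    have e8 : ((Int.castRingHom ℝ) 5 : ℝ) = 5 := by norm_num
    have e9 : ((Int.castRingHom ℝ) 36 : ℝ) = 36 := by norm_num
    rw [e5, e6, e7, e8, e9]
    have e4 : (C ((-1) ^ (a + b + c + d)) : ℝ[X]) * (C (-1) ^ a * C (-1) ^ b * C (-1) ^ c *
        C (-1) ^ d) = 1 := by
      rw [← pow_add, ← pow_add, ← pow_add, C_pow, ← mul_pow, ← C_mul]; norm_num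
    linear_combination (-((X - C 6 : ℝ[X]) ^ a * (X - C 8) ^ b * (X - C 9) ^ c *
      (C 5 * X - C 36) ^ d)) * e4
  have h2 : ((FG a b c d).map (Int.castRingHom ℝ)).coeff n = ((FG a b c d).coeff n : ℝ) := by
    rw [coeff_map]; rfl
  rw [← h2, h1, coeff_C_mul, comp_C_mul_X_coeff, pow_add (-1 : ℝ) (a + b + c + d) n]
  ring

theorem FG_coeff_bound (a b c d n : ℕ) {ρ : ℝ} (hρ : 0 < ρ) :
    |((FG a b c d).coeff n : ℝ)| ≤
      (ρ + 6) ^ a * (ρ + 8) ^ b * (ρ + 9) ^ c * (5 * ρ + 36) ^ d / ρ ^ n := by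
  rw [FG_coeff, abs_mul, abs_pow, abs_neg, abs_one, one_pow, one_mul,
    abs_of_nonneg (FQ_coeff_nonneg a b c d n), le_div_iff₀ (by positivity)]
  refine (coeff_le_eval (FQ_coeff_nonneg a b c d) hρ n).trans (le_of_eq ?_)
  unfold FQ
  simp only [eval_mul, eval_pow, eval_add, eval_X, eval_C]
  congr 2
  ring

theorem FG_coeff_sign (a b c d n : ℕ) :
    0 ≤ (-1) ^ (a + b + c + d + n) * ((FG a b c d).coeff n : ℝ) := by
  rw [FG_coeff, ← mul_assoc, ← mul_pow]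
  norm_num
  exact FQ_coeff_nonneg a b c d n

end Pool.Agent.H621.Osc
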