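import Mathlib
import Pool.Agent.H621.Osc.Poly

set_option autoImplicit false

/-!
Size of `(x-6)^16 (x-8)^11 (x-9)^7 (5x-36)^4 / x^19` on `[6, 9]`.
-/

namespace Pool.Agent.H621.Osc

open Polynomial Finset MeasureTheory intervalIntegral

/-- the check for the interval `[u/10000, v/10000]` -/
def okp (u v : ℕ) : Bool :=
  decide (60000 ≤ u) && decide (u ≤ v) && decide (v ≤ 90000) &&
  decide (6000000000000 * ((v - 60000) ^ 16 *
    (max ((u - 80000) + (80000 - u)) ((v - 80000) + (80000 - v))) ^ 11 * (90000 - u) ^ 7 *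
    (max ((5 * u - 360000) + (360000 - 5 * u)) ((5 * v - 360000) + (360000 - 5 * v))) ^ 4)
    ≤ u ^ 19 * 10000 ^ 19)

theorem cast_sub_add (u w : ℕ) : (((u - w) + (w - u) : ℕ) : ℝ) = |(u : ℝ) - w| := by
  rcases le_total u w with h | h
  · rw [Nat.sub_eq_zero_of_le h, zero_add, Nat.cast_sub h, abs_of_nonpos]
    · ring
    · have : (u : ℝ) ≤ w := by exact_mod_cast h
      linarith
  · rw [Nat.sub_eq_zero_of_le h, add_zero, Nat.cast_sub h, abs_of_nonneg]
    have : (w : ℝ) ≤ u := by exact_mod_cast h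
    linarith

theorem abs_le_max_of_mem {u v x w : ℝ} (h1 : u ≤ x) (h2 : x ≤ v) :
    |x - w| ≤ max |u - w| |v - w| := by
  rw [abs_le]
  constructor
  · have := neg_abs_le (u - w)
    have := le_max_left |u - w| |v - w|
    linarith
  · have := le_abs_self (v - w)
    have := le_max_right |u - w| |v - w|
    linarith

theorem okp_sound {u v : ℕ} (h : okp u v = true) {x : ℝ} (h1 : (u : ℝ) / 10000 ≤ x)
    (h2 : x ≤ (v : ℝ) / 10000) :
    6000000000000 * (|x - 6| ^ 16 * |x - 8| ^ 11 * |x - 9| ^ 7 * |5 * x - 36| ^ 4) ≤ x ^ 19 := by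
  unfold okp at h
  simp only [Bool.and_eq_true, decide_eq_true_eq] at h
  obtain ⟨⟨⟨hu, huv⟩, hv⟩, hmain⟩ := h
  have hu' : (60000 : ℝ) ≤ u := by exact_mod_cast hu
  have hv' : (v : ℝ) ≤ 90000 := by exact_mod_cast hv
  have huv' : (u : ℝ) ≤ v := by exact_mod_cast huv
  have g1 : (u : ℝ) ≤ 10000 * x := by linarith
  have g2 : 10000 * x ≤ v := by linarith
  have hR : (6000000000000 : ℝ) * (((v : ℝ) - 60000) ^ 16 *
    (max |(u : ℝ) - 80000| |(v : ℝ) - 80000|) ^ 11 * (90000 - (u : ℝ)) ^ 7 *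
    (max |5 * (u : ℝ) - 360000| |5 * (v : ℝ) - 360000|) ^ 4)
    ≤ (u : ℝ) ^ 19 * 10000 ^ 19 := by
    have h3 : ((6000000000000 * ((v - 60000) ^ 16 *
    (max ((u - 80000) + (80000 - u)) ((v - 80000) + (80000 - v))) ^ 11 * (90000 - u) ^ 7 *
    (max ((5 * u - 360000) + (360000 - 5 * u)) ((5 * v - 360000) + (360000 - 5 * v))) ^ 4) : ℕ) : ℝ)
    ≤ ((u ^ 19 * 10000 ^ 19 : ℕ) : ℝ) := by exact_mod_cast hmain
    rw [Nat.cast_mul, Nat.cast_mul, Nat.cast_mul, Nat.cast_mul, Nat.cast_pow, Nat.cast_pow,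
      Nat.cast_pow, Nat.cast_pow, Nat.cast_max, Nat.cast_max, cast_sub_add, cast_sub_add,
      cast_sub_add, cast_sub_add, Nat.cast_sub (by omega), Nat.cast_sub (by omega)] at h3
    push_cast at h3
    have e19 : (10000 : ℝ) ^ 19 =
        10000000000000000000000000000000000000000000000000000000000000000000000000000 := by norm_num
    rw [e19]
    exact h3
  have f1 : |x - 6| ≤ ((v : ℝ) - 60000) / 10000 := by
    rw [abs_of_nonneg (by linarith)]; linarith
  have f2 : |x - 8| ≤ (max |(u : ℝ) - 80000| |(v : ℝ) - 80000|) / 10000 := by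
    have := abs_le_max_of_mem (w := 80000) g1 g2
    rw [le_div_iff₀ (by norm_num)]
    have e : 10000 * x - 80000 = (x - 8) * 10000 := by ring
    rw [e, abs_mul, abs_of_pos (by norm_num : (0:ℝ) < 10000)] at this
    exact this
  have f3 : |x - 9| ≤ (90000 - (u : ℝ)) / 10000 := by
    rw [abs_of_nonpos (by linarith)]; linarith
  have f4 : |5 * x - 36| ≤ (max |5 * (u : ℝ) - 360000| |5 * (v : ℝ) - 360000|) / 10000 := by
    have := abs_le_max_of_mem (u := 5 * u) (v := 5 * v) (x := 5 * (10000 * x)) (w := 360000)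
      (by linarith) (by linarith)
    rw [le_div_iff₀ (by norm_num)]
    have e : 5 * (10000 * x) - 360000 = (5 * x - 36) * 10000 := by ring
    rw [e, abs_mul, abs_of_pos (by norm_num : (0:ℝ) < 10000)] at this
    exact this
  have k1 : |x - 6| ^ 16 ≤ (((v : ℝ) - 60000) / 10000) ^ 16 :=
    pow_le_pow_left₀ (abs_nonneg _) f1 16
  have k2 : |x - 8| ^ 11 ≤ ((max |(u : ℝ) - 80000| |(v : ℝ) - 80000|) / 10000) ^ 11 :=
    pow_le_pow_left₀ (abs_nonneg _) f2 11
  have k3 : |x - 9| ^ 7 ≤ ((90000 - (u : ℝ)) / 10000) ^ 7 := pow_le_pow_left₀ (abs_nonneg _) f3 7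
  have k4 : |5 * x - 36| ^ 4 ≤ ((max |5 * (u : ℝ) - 360000| |5 * (v : ℝ) - 360000|) / 10000) ^ 4 :=
    pow_le_pow_left₀ (abs_nonneg _) f4 4
  have p1 : 0 ≤ |x - 6| ^ 16 := by positivity
  have p2 : 0 ≤ |x - 8| ^ 11 := by positivity
  have p3 : 0 ≤ |x - 9| ^ 7 := by positivity
  have p4 : 0 ≤ |5 * x - 36| ^ 4 := by positivity
  have kk : |x - 6| ^ 16 * |x - 8| ^ 11 * |x - 9| ^ 7 * |5 * x - 36| ^ 4 ≤
      (((v : ℝ) - 60000) / 10000) ^ 16 *
      ((max |(u : ℝ) - 80000| |(v : ℝ) - 80000|) / 10000) ^ 11 *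
      ((90000 - (u : ℝ)) / 10000) ^ 7 *
      ((max |5 * (u : ℝ) - 360000| |5 * (v : ℝ) - 360000|) / 10000) ^ 4 := by
    apply mul_le_mul _ k4 p4
    · exact mul_nonneg (mul_nonneg (p1.trans k1) (p2.trans k2)) (p3.trans k3)
    · apply mul_le_mul _ k3 p3
      · exact mul_nonneg (p1.trans k1) (p2.trans k2)
      · exact mul_le_mul k1 k2 p2 (p1.trans k1)
  have hxu : ((u : ℝ) / 10000) ^ 19 ≤ x ^ 19 :=
    pow_le_pow_left₀ (by positivity) h1 19
  have hcalc : 6000000000000 * ((((v : ℝ) - 60000) / 10000) ^ 16 *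
      ((max |(u : ℝ) - 80000| |(v : ℝ) - 80000|) / 10000) ^ 11 *
      ((90000 - (u : ℝ)) / 10000) ^ 7 *
      ((max |5 * (u : ℝ) - 360000| |5 * (v : ℝ) - 360000|) / 10000) ^ 4) ≤
      ((u : ℝ) / 10000) ^ 19 := by
    rw [div_pow, div_pow, div_pow, div_pow, div_pow, div_mul_div_comm, div_mul_div_comm,
      div_mul_div_comm, ← mul_div_assoc, div_le_div_iff₀ (by positivity) (by positivity)]
    have e : (10000 : ℝ) ^ 16 * 10000 ^ 11 * 10000 ^ 7 * 10000 ^ 4 = 10000 ^ 19 * 10000 ^ 19 := by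
      rw [← pow_add, ← pow_add, ← pow_add, ← pow_add]
    have hp : (0 : ℝ) ≤ 10000 ^ 19 := by positivity
    rw [e]
    calc _ ≤ ((u : ℝ) ^ 19 * 10000 ^ 19) * 10000 ^ 19 := mul_le_mul_of_nonneg_right hR hp
      _ = _ := by rw [mul_assoc]
  calc _ ≤ 6000000000000 * _ := mul_le_mul_of_nonneg_left kk (by norm_num)
    _ ≤ _ := hcalc
    _ ≤ _ := hxu

/-- the check for a list of intervals -/
def okl : List ℕ → Bool
  | [] => true
  | [_] => true
  | u :: v :: l => okp u v && okl (v :: l)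

theorem okl_sound : ∀ (l : List ℕ) (u : ℕ), okl (u :: l) = true → ∀ x : ℝ,
    (u : ℝ) / 10000 ≤ x → x ≤ (((u :: l).getLast (List.cons_ne_nil u l) : ℕ) : ℝ) / 10000 →
    l ≠ [] →
    6000000000000 * (|x - 6| ^ 16 * |x - 8| ^ 11 * |x - 9| ^ 7 * |5 * x - 36| ^ 4) ≤ x ^ 19 := by
  intro l
  induction l with
  | nil => intro u _ x _ _ h; exact absurd rfl h
  | cons v l ih =>
    intro u h x h1 h2 _
    simp only [okl, Bool.and_eq_true] at h
    rcases le_total x ((v : ℝ) / 10000) with h3 | h3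
    · exact okp_sound h.1 h1 h3
    · rcases eq_or_ne l [] with h4 | h4
      · subst h4
        simp only [List.getLast_cons_cons, List.getLast_singleton] at h2
        exact okp_sound h.1 h1 h2
      · refine ih v h.2 x h3 ?_ h4
        rw [List.getLast_cons_cons] at h2
        exact h2

def pts : List ℕ := [63274, 64492, 65129, 65522, 65789, 65983, 66131, 66248, 66343, 66422, 66489,
  66547, 66597, 66642, 66682, 66718, 66751, 66781, 66809, 66835, 66860, 66883, 66905, 66926, 66946,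
  66966, 66985, 67003, 67021, 67039, 67057, 67074, 67091, 67108, 67125, 67143, 67161, 67179, 67197,
  67216, 67236, 67256, 67277, 67299, 67322, 67347, 67373, 67401, 67431, 67464, 67500, 67540, 67585,
  67636, 67694, 67762, 67842, 67939, 68059, 68213, 68418, 68706, 69144, 69901, 71570, 74059, 76408,
  81370, 84092, 85062, 85552, 85847, 86045, 86189, 86299, 86386, 86458, 86518, 86570, 86616, 86657,
  86695, 86730, 86763, 86794, 86824, 86854, 86883, 86912, 86941, 86971, 87002, 87035, 87070, 87107,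
  87148, 87193, 87244, 87303, 87374, 87460, 87570, 87717, 87926, 88256, 88871, 90000]

set_option maxRecDepth 100000 in
theorem okl_pts : okl (60000 :: pts) = true := by decide +kernel

theorem sup_bound {x : ℝ} (h1 : 6 ≤ x) (h2 : x ≤ 9) :
    6000000000000 * (|x - 6| ^ 16 * |x - 8| ^ 11 * |x - 9| ^ 7 * |5 * x - 36| ^ 4) ≤ x ^ 19 := by
  refine okl_sound pts 60000 okl_pts x (by norm_num; linarith) ?_ (by simp [pts])
  have : (60000 :: pts).getLast (List.cons_ne_nil 60000 pts) = 90000 := by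
    simp [pts]
  rw [this]
  norm_num
  linarith

/-- the integrand -/
noncomputable def fG (a b c d n : ℕ) (x : ℝ) : ℝ :=
  ((FG a b c d).map (Int.castRingHom ℝ)).eval x / x ^ (n + 1)

theorem fG_eq (a b c d n : ℕ) (x : ℝ) :
    fG a b c d n x = (x - 6) ^ a * (x - 8) ^ b * (x - 9) ^ c * (5 * x - 36) ^ d / x ^ (n + 1) := by
  unfold fG; rw [FG_eval]

theorem fG_abs (m e1 e2 e3 : ℕ) (he1 : e1 ≤ 1) (he2 : e2 ≤ 1) (he3 : e3 ≤ 1) {x : ℝ} (h6 : 6 ≤ x)
    (h9 : x ≤ 9) :
    |fG (16 * m + e1) (11 * m + e2) (7 * m + e3) (4 * m) (19 * m) x| ≤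
      3 * (1 / 6000000000000) ^ m := by
  have hx : 0 < x := by linarith
  have hbase : |x - 6| ^ 16 * |x - 8| ^ 11 * |x - 9| ^ 7 * |5 * x - 36| ^ 4 ≤
      1 / 6000000000000 * x ^ 19 := by
    have := sup_bound h6 h9
    linarith
  rw [fG_eq, abs_div, abs_mul, abs_mul, abs_mul, abs_pow, abs_pow, abs_pow, abs_pow,
    abs_of_pos (by positivity : 0 < x ^ (19 * m + 1)), div_le_iff₀ (by positivity)]
  have h1 : (|x - 6| ^ 16 * |x - 8| ^ 11 * |x - 9| ^ 7 * |5 * x - 36| ^ 4) ^ m ≤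
      (1 / 6000000000000 * x ^ 19) ^ m := pow_le_pow_left₀ (by positivity) hbase m
  have h2 : |x - 6| ^ e1 ≤ 3 := by
    have h3 : |x - 6| ≤ 3 := by rw [abs_le]; constructor <;> linarith
    interval_cases e1
    · norm_num
    · simpa using h3
  have h3 : |x - 8| ^ e2 ≤ 2 := by
    have h3 : |x - 8| ≤ 2 := by rw [abs_le]; constructor <;> linarith
    interval_cases e2
    · norm_num
    · simpa using h3
  have h3' : |x - 9| ^ e3 ≤ 3 := by
    have h3 : |x - 9| ≤ 3 := by rw [abs_le]; constructor <;> linarith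
    interval_cases e3
    · norm_num
    · simpa using h3
  have h4 : |x - 6| ^ e1 * |x - 8| ^ e2 * |x - 9| ^ e3 ≤ 3 * x := by
    have : |x - 6| ^ e1 * |x - 8| ^ e2 ≤ 3 * 2 := mul_le_mul h2 h3 (by positivity) (by norm_num)
    have : |x - 6| ^ e1 * |x - 8| ^ e2 * |x - 9| ^ e3 ≤ 3 * 2 * 3 :=
      mul_le_mul this h3' (by positivity) (by norm_num)
    linarith
  calc |x - 6| ^ (16 * m + e1) * |x - 8| ^ (11 * m + e2) * |x - 9| ^ (7 * m + e3) *
        |5 * x - 36| ^ (4 * m)
      = (|x - 6| ^ 16 * |x - 8| ^ 11 * |x - 9| ^ 7 * |5 * x - 36| ^ 4) ^ m *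
        (|x - 6| ^ e1 * |x - 8| ^ e2 * |x - 9| ^ e3) := by
        rw [pow_add, pow_add, pow_add, pow_mul, pow_mul, pow_mul, pow_mul, mul_pow, mul_pow,
          mul_pow]; ring
    _ ≤ (1 / 6000000000000 * x ^ 19) ^ m * (3 * x) :=
        mul_le_mul h1 h4 (by positivity) (by positivity)
    _ = 3 * (1 / 6000000000000) ^ m * x ^ (19 * m + 1) := by
        rw [mul_pow, ← pow_mul, pow_succ]; ring

theorem fG_cont (a b c d n : ℕ) {s t : ℝ} (hs : 0 < s) (ht : 0 < t) :
    ContinuousOn (fG a b c d n) (Set.uIcc s t) := by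
  have : fG a b c d n = fun x =>
      (x - 6) ^ a * (x - 8) ^ b * (x - 9) ^ c * (5 * x - 36) ^ d / x ^ (n + 1) := by
    funext x; exact fG_eq a b c d n x
  rw [this]
  intro x hx
  have hx0 : 0 < x := by
    rcases Set.mem_uIcc.1 hx with h | h
    · linarith [h.1]
    · linarith [h.1]
  apply ContinuousAt.continuousWithinAt
  apply ContinuousAt.div
  · fun_prop
  · fun_prop
  · positivity

theorem J_abs (m e1 e2 e3 : ℕ) (he1 : e1 ≤ 1) (he2 : e2 ≤ 1) (he3 : e3 ≤ 1) {s t : ℝ} (hs : 6 ≤ s)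
    (hst : s ≤ t) (ht : t ≤ 9) :
    |∫ x in s..t, fG (16 * m + e1) (11 * m + e2) (7 * m + e3) (4 * m) (19 * m) x| ≤
      3 * (1 / 6000000000000) ^ m * (t - s) := by
  have := intervalIntegral.norm_integral_le_of_norm_le_const (a := s) (b := t)
    (f := fG (16 * m + e1) (11 * m + e2) (7 * m + e3) (4 * m) (19 * m))
    (C := 3 * (1 / 6000000000000) ^ m) (by
      intro x hx
      rw [Set.uIoc_of_le hst] at hx
      rw [Real.norm_eq_abs]
      exact fG_abs m e1 e2 e3 he1 he2 he3 (by linarith [hx.1]) (by linarith [hx.2]))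
  rw [Real.norm_eq_abs, abs_of_nonneg (show 0 ≤ t - s by linarith)] at this
  exact this

/-- sign of the integral over `[8, 9]` -/
theorem J1_sign (a b c d n : ℕ) : 0 < (-1) ^ c * ∫ x in (8:ℝ)..9, fG a b c d n x := by
  rw [← intervalIntegral.integral_const_mul]
  apply intervalIntegral.intervalIntegral_pos_of_pos_on
  · apply ContinuousOn.intervalIntegrable
    exact (fG_cont a b c d n (by norm_num) (by norm_num)).const_smul ((-1 : ℝ) ^ c)
  · intro x hx
    rw [fG_eq]
    have h1 : 0 < x - 6 := by linarith [hx.1]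
    have h2 : 0 < x - 8 := by linarith [hx.1]
    have h3 : 0 < 9 - x := by linarith [hx.2]
    have h4 : 0 < x := by linarith [hx.1]
    have h5 : 0 < 5 * x - 36 := by linarith [hx.1]
    have e : (-1) ^ c * ((x - 6) ^ a * (x - 8) ^ b * (x - 9) ^ c * (5 * x - 36) ^ d / x ^ (n + 1)) =
        (x - 6) ^ a * (x - 8) ^ b * (9 - x) ^ c * (5 * x - 36) ^ d / x ^ (n + 1) := by
      rw [show (9 - x) = (-1) * (x - 9) by ring, mul_pow]; ring
    rw [e]
    positivity
  · norm_num

/-- sign of the integral over `[6, 8]` -/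
theorem J2_sign (a b c d n : ℕ) (hd : Even d) :
    0 < (-1) ^ (b + c) * ∫ x in (6:ℝ)..8, fG a b c d n x := by
  have hpiece : ∀ s t : ℝ, 6 ≤ s → s < t → t ≤ 8 → (∀ x, s < x → x < t → 5 * x - 36 ≠ 0) →
      0 < ∫ x in s..t, (-1) ^ (b + c) * fG a b c d n x := by
    intro s t hs hst ht hne
    apply intervalIntegral.intervalIntegral_pos_of_pos_on
    · apply ContinuousOn.intervalIntegrable
      exact (fG_cont a b c d n (by linarith) (by linarith)).const_smul ((-1 : ℝ) ^ (b + c))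
    · intro x hx
      rw [fG_eq]
      have h1 : 0 < x - 6 := by linarith [hx.1]
      have h2 : 0 < 8 - x := by linarith [hx.2]
      have h3 : 0 < 9 - x := by linarith [hx.2]
      have h4 : 0 < x := by linarith [hx.1]
      have h5 : 0 < (5 * x - 36) ^ d := hd.pow_pos (hne x hx.1 hx.2)
      have e : (-1) ^ (b + c) * ((x - 6) ^ a * (x - 8) ^ b * (x - 9) ^ c * (5 * x - 36) ^ d /
          x ^ (n + 1)) =
          (x - 6) ^ a * (8 - x) ^ b * (9 - x) ^ c * (5 * x - 36) ^ d / x ^ (n + 1) := by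
        rw [show (9 - x) = (-1) * (x - 9) by ring, show (8 - x) = (-1) * (x - 8) by ring, mul_pow,
          mul_pow, pow_add]; ring
      rw [e]
      positivity
    · exact hst
  rw [← intervalIntegral.integral_const_mul]
  have hi : ∀ s t : ℝ, 0 < s → 0 < t →
      IntervalIntegrable (fun x => (-1) ^ (b + c) * fG a b c d n x) volume s t := by
    intro s t hs ht
    apply ContinuousOn.intervalIntegrable
    exact (fG_cont a b c d n hs ht).const_smul ((-1 : ℝ) ^ (b + c))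
  rw [← intervalIntegral.integral_add_adjacent_intervals (hi 6 (36/5) (by norm_num) (by norm_num))
    (hi (36/5) 8 (by norm_num) (by norm_num))]
  have p1 := hpiece 6 (36/5) (by norm_num) (by norm_num) (by norm_num)
    (fun x _ h => by intro h'; linarith)
  have p2 := hpiece (36/5) 8 (by norm_num) (by norm_num) (by norm_num)
    (fun x h _ => by intro h'; linarith)
  linarith

end Pool.Agent.H621.Osc
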