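import Mathlib
import Pool.Agent.H621.Osc.Key
import Pool.Agent.H621.Osc.Cheb

set_option autoImplicit false

/-!
Lower bounds for `|u log 2 - o log 3|`.
-/

namespace Pool.Agent.H621.Osc

/-- the growth constant -/
noncomputable def K : ℝ := 12 ^ 16 * 14 ^ 11 * 15 ^ 7 * 66 ^ 4 / 6 ^ 19

theorem K_pos : 0 < K := by unfold K; positivity

theorem measure_gen (C c : ℝ) (κ : ℕ) (hC : 1 ≤ C) (hc : 0 ≤ c)
    (hlcm : ∀ n : ℕ, (Nat.lcmUpto n : ℝ) ≤ C * Real.exp (c * n))
    (hnum : Real.exp (19 * c) ^ (κ + 1) * K ≤ 6000000000000 ^ κ)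
    (hlt : Real.exp (19 * c) < 6000000000000) (p q : ℤ) (hp : 0 < p) (hq : q < 0) :
    1 ≤ 5040 * (C * Real.exp (3 * c)) *
      (Real.exp (19 * c) * K * (12 * (C * Real.exp (3 * c))) ^ κ) *
      ((p : ℝ) - q) ^ κ * |(p : ℝ) * Real.log (9 / 8) + q * Real.log (8 / 6)| := by
  set E : ℝ := Real.exp (19 * c) with hE
  have hE0 : 0 < E := Real.exp_pos _
  have hK0 : 0 < K := K_pos
  set r1 : ℝ := E / 6000000000000 with hr1
  have hr10 : 0 < r1 := by positivity
  have hr11 : r1 < 1 := by rw [hr1, div_lt_one (by norm_num)]; exact hlt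
  set r2 : ℝ := E * K with hr2
  have hr20 : 0 < r2 := by positivity
  have hr : r2 * r1 ^ κ ≤ 1 := by
    rw [hr1, hr2, div_pow, ← mul_div_assoc, div_le_one (by positivity)]
    calc E * K * E ^ κ = E ^ (κ + 1) * K := by ring
      _ ≤ 6000000000000 ^ κ := hnum
  set B : ℝ := C * Real.exp (3 * c) with hB
  have hB1 : 1 ≤ B := by
    have : 1 ≤ Real.exp (3 * c) := by
      rw [← Real.exp_zero]; apply Real.exp_le_exp.2; positivity
    rw [hB]; nlinarith
  have hB0 : 0 < B := by linarith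
  -- key inequality
  have hkey : ∀ (m : ℕ),
      1 ≤ B * (6 * ((p : ℝ) - q) * r1 ^ m +
        2520 * r2 ^ m * |(p : ℝ) * Real.log (9 / 8) + q * Real.log (8 / 6)|) := by
    intro m
    have h1 := key m p q hp hq
    have h2 := hlcm (19 * m + 3)
    have h3 : Real.exp (c * ((19 * m + 3 : ℕ) : ℝ)) = Real.exp (3 * c) * E ^ m := by
      rw [hE, ← Real.exp_nat_mul, ← Real.exp_add]
      congr 1
      push_cast; ring
    rw [h3] at h2
    have hpr : (0 : ℝ) < p := by exact_mod_cast hp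
    have hqr : (q : ℝ) < 0 := by exact_mod_cast hq
    have hpq : 0 < (p : ℝ) - q := by linarith
    refine h1.trans ((mul_le_mul_of_nonneg_right h2 (by positivity)).trans (le_of_eq ?_))
    have e1 : (12 : ℝ) ^ (16 * m + 1) * 14 ^ (11 * m + 1) * 15 ^ (7 * m + 1) * 66 ^ (4 * m) /
        6 ^ (19 * m) = 2520 * K ^ m := by
      unfold K
      rw [div_pow, mul_pow, mul_pow, mul_pow, ← pow_mul, ← pow_mul, ← pow_mul, ← pow_mul,
        ← pow_mul, pow_succ, pow_succ, pow_succ]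
      ring
    have e2 : r1 ^ m = (1 / 6000000000000) ^ m * E ^ m := by rw [hr1, ← mul_pow]; congr 1; ring
    have e3 : r2 ^ m = K ^ m * E ^ m := by rw [hr2, mul_pow]; ring
    rw [e1, hB, e2, e3]
    clear_value E
    ring
  have hpr : (1 : ℝ) ≤ p := by exact_mod_cast hp
  have hqr : (q : ℝ) ≤ -1 := by
    have : q ≤ -1 := by omega
    exact_mod_cast this
  set H : ℝ := (p : ℝ) - q with hH
  have hH1 : 1 ≤ H := by linarith
  set L : ℝ := |(p : ℝ) * Real.log (9 / 8) + q * Real.log (8 / 6)| with hL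
  have hL0 : 0 ≤ L := abs_nonneg _
  -- the least m with `12 B H r1^m ≤ 1`
  have hex : ∃ m : ℕ, 12 * B * H * r1 ^ m ≤ 1 := by
    obtain ⟨m, hm⟩ := exists_pow_lt_of_lt_one (show 0 < 1 / (12 * B * H) by positivity) hr11
    refine ⟨m, ?_⟩
    rw [lt_div_iff₀ (by positivity)] at hm
    linarith
  classical
  set m := Nat.find hex with hm
  have hm1 : 12 * B * H * r1 ^ m ≤ 1 := Nat.find_spec hex
  have hmk := hkey m
  have hlow : 1 / 2 ≤ B * (2520 * r2 ^ m * L) := by
    have : B * (6 * H * r1 ^ m) ≤ 1 / 2 := by linarith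
    have e : B * (6 * H * r1 ^ m + 2520 * r2 ^ m * L) =
        B * (6 * H * r1 ^ m) + B * (2520 * r2 ^ m * L) := by
      ring
    rw [e] at hmk
    linarith
  have hup : r2 ^ m ≤ (r2 * (12 * B) ^ κ) * H ^ κ := by
    rcases Nat.eq_zero_or_pos m with h0 | h0
    · exfalso
      rw [h0, pow_zero] at hm1
      nlinarith
    · have hm2 : ¬ (12 * B * H * r1 ^ (m - 1) ≤ 1) := Nat.find_min hex (by omega)
      have hm2 : 1 < 12 * B * H * r1 ^ (m - 1) := not_le.1 hm2
      have h6 : 1 ≤ (12 * B * H * r1 ^ (m - 1)) ^ κ := one_le_pow₀ hm2.le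
      have h7 : r2 ^ (m - 1) * (r1 ^ (m - 1)) ^ κ ≤ 1 := by
        rw [← pow_mul, mul_comm (m - 1) κ, pow_mul, ← mul_pow]
        exact pow_le_one₀ (by positivity) hr
      have h8 : r2 ^ (m - 1) ≤ (12 * B * H) ^ κ := by
        have h9 : 0 < r2 ^ (m - 1) := by positivity
        calc r2 ^ (m - 1) ≤ r2 ^ (m - 1) * (12 * B * H * r1 ^ (m - 1)) ^ κ := by
              nlinarith
          _ = (r2 ^ (m - 1) * (r1 ^ (m - 1)) ^ κ) * (12 * B * H) ^ κ := by
              rw [mul_pow (12 * B * H) (r1 ^ (m - 1)) κ]; ac_rfl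
          _ ≤ 1 * (12 * B * H) ^ κ := mul_le_mul_of_nonneg_right h7 (by positivity)
          _ = (12 * B * H) ^ κ := one_mul _
      have h10 : r2 ^ m = r2 * r2 ^ (m - 1) := by
        rw [← pow_succ']; congr 1; omega
      rw [h10]
      calc r2 * r2 ^ (m - 1) ≤ r2 * (12 * B * H) ^ κ := mul_le_mul_of_nonneg_left h8 hr20.le
        _ = (r2 * (12 * B) ^ κ) * H ^ κ := by rw [mul_pow]; ring
  have h11 : B * (2520 * r2 ^ m * L) ≤ B * (2520 * ((r2 * (12 * B) ^ κ) * H ^ κ) * L) := by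
    apply mul_le_mul_of_nonneg_left _ hB0.le
    apply mul_le_mul_of_nonneg_right _ hL0
    linarith
  have h12 : 5040 * B * (r2 * (12 * B) ^ κ) * H ^ κ * L =
      2 * (B * (2520 * ((r2 * (12 * B) ^ κ) * H ^ κ) * L)) := by ring
  rw [h12]
  linarith

/-- the form in terms of `log 2` and `log 3` -/
theorem form_eq (u o : ℤ) : ((2 * o - u : ℤ) : ℝ) * Real.log (9 / 8) +
    ((3 * o - 2 * u : ℤ) : ℝ) * Real.log (8 / 6) = -((u : ℝ) * Real.log 2 - o * Real.log 3) := by
  have e98 : Real.log (9 / 8) = 2 * Real.log 3 - 3 * Real.log 2 := by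
    rw [show (9 : ℝ) / 8 = 3 ^ 2 / 2 ^ 3 by norm_num, Real.log_div (by norm_num) (by norm_num),
      Real.log_pow, Real.log_pow]; push_cast; ring
  have e86 : Real.log (8 / 6) = 2 * Real.log 2 - Real.log 3 := by
    rw [show (8 : ℝ) / 6 = 2 ^ 2 / 3 by norm_num, Real.log_div (by norm_num) (by norm_num),
      Real.log_pow]; push_cast; ring
  rw [e98, e86]; push_cast; ring

set_option exponentiation.threshold 1000 in
theorem exp_num : Real.exp (19 * 1.11) ^ (11 + 1) * K ≤ 6000000000000 ^ 11 := by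
  have h1 : Real.exp (19 * 1.11) ^ 12 = Real.exp 1 ^ 253 * Real.exp 0.08 := by
    rw [← Real.exp_nat_mul, ← Real.exp_nat_mul, ← Real.exp_add]; norm_num
  have h2 : Real.exp 0.08 ≤ 1 / 0.92 := by
    have h := Real.one_sub_le_exp_neg (0.08 : ℝ)
    rw [Real.exp_neg] at h
    have h0 := Real.exp_pos (0.08 : ℝ)
    rw [le_div_iff₀ (by norm_num)]
    have h3 : (1 - 0.08) * Real.exp 0.08 ≤ (Real.exp 0.08)⁻¹ * Real.exp 0.08 :=
      mul_le_mul_of_nonneg_right h h0.le
    rw [inv_mul_cancel₀ h0.ne'] at h3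
    linarith
  have h3 : Real.exp 1 ^ 253 ≤ 2.7182818286 ^ 253 :=
    pow_le_pow_left₀ (Real.exp_pos 1).le Real.exp_one_lt_d9.le _
  have h4 : ((2.7182818286 : ℝ) ^ 253 * (1 / 0.92)) * K ≤ 6000000000000 ^ 11 := by
    unfold K
    norm_num
  rw [h1]
  refine le_trans (mul_le_mul_of_nonneg_right ?_ K_pos.le) h4
  exact mul_le_mul h3 h2 (Real.exp_pos _).le (by positivity)

theorem exp_lt : Real.exp (19 * 1.11) < 6000000000000 := by
  have h1 : Real.exp (19 * 1.11) ≤ Real.exp 1 ^ 22 := by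
    rw [← Real.exp_nat_mul]
    apply Real.exp_le_exp.2
    norm_num
  have h2 : Real.exp 1 ^ 22 ≤ 2.7182818286 ^ 22 :=
    pow_le_pow_left₀ (Real.exp_pos 1).le Real.exp_one_lt_d9.le 22
  have h3 : (2.7182818286 : ℝ) ^ 22 < 6000000000000 := by norm_num
  linarith

/-- **Explicit lower bound.** -/
theorem measure_explicit (u o : ℤ) (h1 : u < 2 * o) (h2 : 3 * o < 2 * u) :
    1 ≤ 2 ^ 243 * ((u : ℝ) - o) ^ 11 * |(u : ℝ) * Real.log 2 - o * Real.log 3| := by
  have h := measure_gen 1 1.11 11 le_rfl (by norm_num) (fun n => by rw [one_mul]; exact lcm_le_exp n)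
    exp_num exp_lt (2 * o - u) (3 * o - 2 * u) (by linarith) (by linarith)
  rw [form_eq, abs_neg] at h
  have e : ((2 * o - u : ℤ) : ℝ) - ((3 * o - 2 * u : ℤ) : ℝ) = (u : ℝ) - o := by push_cast; ring
  rw [e] at h
  refine h.trans ?_
  apply mul_le_mul_of_nonneg_right _ (abs_nonneg _)
  have huo : (0 : ℝ) ≤ (u : ℝ) - o := by
    have : (0 : ℤ) ≤ u - o := by linarith
    exact_mod_cast this
  apply mul_le_mul_of_nonneg_right _ (pow_nonneg huo 11)
  -- the constant
  have e3 : Real.exp (3 * 1.11) ≤ 28.1 := by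
    have h1 : Real.exp (3 * 1.11) = Real.exp 1 ^ 3 * Real.exp 0.33 := by
      rw [← Real.exp_nat_mul, ← Real.exp_add]; norm_num
    have h2 : Real.exp 0.33 ^ 3 = Real.exp 1 * (Real.exp 0.01)⁻¹ := by
      rw [← Real.exp_nat_mul, ← Real.exp_neg, ← Real.exp_add]; norm_num
    have h3 : (Real.exp (0.01 : ℝ))⁻¹ ≤ 1 / 1.01 := by
      rw [inv_eq_one_div]
      apply one_div_le_one_div_of_le (by norm_num)
      have := Real.add_one_le_exp (0.01 : ℝ)
      linarith
    have h4 : Real.exp 0.33 ^ 3 ≤ 2.7182818286 * (1 / 1.01) := by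
      rw [h2]
      exact mul_le_mul Real.exp_one_lt_d9.le h3 (by positivity) (by norm_num)
    have h5 : Real.exp 0.33 ≤ 1.392 := by
      by_contra hcon
      have h6 : (1.392 : ℝ) ^ 3 ≤ Real.exp 0.33 ^ 3 :=
        pow_le_pow_left₀ (by norm_num) (not_le.1 hcon).le 3
      have h7 : (2.7182818286 : ℝ) * (1 / 1.01) < 1.392 ^ 3 := by norm_num
      linarith
    rw [h1]
    have h6 : Real.exp 1 ^ 3 ≤ 2.7182818286 ^ 3 :=
      pow_le_pow_left₀ (Real.exp_pos 1).le Real.exp_one_lt_d9.le 3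
    calc Real.exp 1 ^ 3 * Real.exp 0.33 ≤ 2.7182818286 ^ 3 * 1.392 :=
          mul_le_mul h6 h5 (Real.exp_pos _).le (by norm_num)
      _ ≤ 28.1 := by norm_num
  have e4 : Real.exp (19 * 1.11) * K ≤ 2 ^ 133 := by
    have h1 : Real.exp (19 * 1.11) = Real.exp 1 ^ 21 * Real.exp 0.09 := by
      rw [← Real.exp_nat_mul, ← Real.exp_add]; norm_num
    have h2 : Real.exp 0.09 ≤ 1 / 0.91 := by
      have h := Real.one_sub_le_exp_neg (0.09 : ℝ)
      rw [Real.exp_neg] at h
      have h0 := Real.exp_pos (0.09 : ℝ)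
      rw [le_div_iff₀ (by norm_num)]
      have h3 : (1 - 0.09) * Real.exp 0.09 ≤ (Real.exp 0.09)⁻¹ * Real.exp 0.09 :=
        mul_le_mul_of_nonneg_right h h0.le
      rw [inv_mul_cancel₀ h0.ne'] at h3
      linarith
    have h3 : Real.exp 1 ^ 21 ≤ 2.7182818286 ^ 21 :=
      pow_le_pow_left₀ (Real.exp_pos 1).le Real.exp_one_lt_d9.le _
    have h4 : ((2.7182818286 : ℝ) ^ 21 * (1 / 0.91)) * K ≤ 2 ^ 133 := by
      unfold K
      norm_num
    rw [h1]
    refine le_trans (mul_le_mul_of_nonneg_right ?_ K_pos.le) h4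
    exact mul_le_mul h3 h2 (Real.exp_pos _).le (by positivity)
  have e5 : (0 : ℝ) < Real.exp (3 * 1.11) := Real.exp_pos _
  rw [one_mul]
  calc 5040 * Real.exp (3 * 1.11) * (Real.exp (19 * 1.11) * K * (12 * Real.exp (3 * 1.11)) ^ 11)
      ≤ 5040 * 28.1 * (2 ^ 133 * (12 * 28.1) ^ 11) := by
        apply mul_le_mul
        · linarith
        · apply mul_le_mul e4
          · exact pow_le_pow_left₀ (by positivity) (by linarith) 11
          · positivity
          · positivity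
        · have := K_pos; positivity
        · positivity
    _ ≤ 2 ^ 243 := by norm_num

end Pool.Agent.H621.Osc
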