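import Mathlib
import Pool.Agent.H621.Osc.Count

set_option autoImplicit false

/-!
The visits of a rotation to a window.
-/

namespace Pool.Agent.H621.Osc

/-- `q` is the denominator of a good approximation `a / q` of `al` -/
def Good (a : ℤ) (q : ℕ) : Prop := 1 ≤ q ∧ IsCoprime a (q : ℤ) ∧ |(q : ℝ) * al - a| * q ≤ 1

theorem block (a : ℤ) (q : ℕ) (h : Good a q) (τ X : ℝ) (hτ : 0 ≤ τ) (s : ℕ) :
    ((((Finset.Ioc s (s + q)).filter fun i : ℕ =>
      ⌈(i : ℝ) * al - X⌉ ≤ ⌊(i : ℝ) * al - X + τ⌋).card : ℕ) : ℝ) ≤ q * τ + 2 := by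
  obtain ⟨hq1, hcop, hη⟩ := h
  have hq0 : (0 : ℝ) < q := by exact_mod_cast hq1
  set η : ℝ := (q : ℝ) * al - a with hηdef
  set w : ℝ := if 0 ≤ η then 0 else -1 with hw
  set L : ℝ := s * η - q * X + w with hL
  set S := (Finset.Ioc s (s + q)).filter fun i : ℕ =>
      ⌈(i : ℝ) * al - X⌉ ≤ ⌊(i : ℝ) * al - X + τ⌋ with hS
  set r : ℕ → ℤ := fun i => q * ⌈(i : ℝ) * al - X⌉ - i * a with hr
  have hmaps : Set.MapsTo r S (Finset.Icc ⌈L⌉ ⌊L + (q * τ + 1)⌋) := by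
    intro i hi
    rw [Finset.mem_coe, hS, Finset.mem_filter, Finset.mem_Ioc] at hi
    obtain ⟨⟨hi1, hi2⟩, hi3⟩ := hi
    have c1 : (i : ℝ) * al - X ≤ ⌈(i : ℝ) * al - X⌉ := Int.le_ceil _
    have c2 : (⌈(i : ℝ) * al - X⌉ : ℝ) ≤ (i : ℝ) * al - X + τ := by
      have := Int.floor_le ((i : ℝ) * al - X + τ)
      have h2 : (⌈(i : ℝ) * al - X⌉ : ℝ) ≤ (⌊(i : ℝ) * al - X + τ⌋ : ℝ) := by exact_mod_cast hi3
      linarith
    have e1 : (i : ℝ) * η = i * (q * al) - i * a := by rw [hηdef]; ring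
    have hj1 : (0 : ℝ) ≤ (i : ℝ) - s := by
      have : (s : ℝ) ≤ i := by exact_mod_cast hi1.le
      linarith
    have hj2 : (i : ℝ) - s ≤ q := by
      have : (i : ℝ) ≤ s + q := by exact_mod_cast hi2
      linarith
    have hw1 : w ≤ ((i : ℝ) - s) * η ∧ ((i : ℝ) - s) * η ≤ w + 1 := by
      rcases le_or_gt 0 η with h0 | h0
      · rw [hw, if_pos h0]
        rw [abs_of_nonneg h0] at hη
        constructor
        · positivity
        · nlinarith
      · rw [hw, if_neg (not_le.2 h0)]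
        rw [abs_of_neg h0] at hη
        constructor
        · nlinarith
        · nlinarith
    rw [Finset.mem_coe, Finset.mem_Icc, Int.ceil_le, Int.le_floor]
    have er : ((r i : ℤ) : ℝ) = q * ⌈(i : ℝ) * al - X⌉ - i * a := by
      simp only [hr]; push_cast; ring
    rw [er]
    have m1 : (q : ℝ) * ((i : ℝ) * al - X) ≤ q * ⌈(i : ℝ) * al - X⌉ :=
      mul_le_mul_of_nonneg_left c1 hq0.le
    have m2 : (q : ℝ) * ⌈(i : ℝ) * al - X⌉ ≤ q * ((i : ℝ) * al - X + τ) :=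
      mul_le_mul_of_nonneg_left c2 hq0.le
    have e2 : (q : ℝ) * ((i : ℝ) * al - X) = i * (q * al) - q * X := by ring
    have e3 : (q : ℝ) * ((i : ℝ) * al - X + τ) = i * (q * al) - q * X + q * τ := by ring
    have e4 : ((i : ℝ) - s) * η = i * η - s * η := by ring
    rw [e4] at hw1
    constructor
    · rw [hL]; linarith [hw1.1]
    · rw [hL]; linarith [hw1.2]
  have hinj : Set.InjOn r S := by
    intro i hi i' hi' heq
    rw [Finset.mem_coe, hS, Finset.mem_filter, Finset.mem_Ioc] at hi hi'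
    simp only [hr] at heq
    have h1 : (q : ℤ) ∣ a * ((i : ℤ) - i') :=
      ⟨⌈(i : ℝ) * al - X⌉ - ⌈(i' : ℝ) * al - X⌉, by linarith⟩
    have h2 : (q : ℤ) ∣ (i : ℤ) - i' := hcop.symm.dvd_of_dvd_mul_left h1
    by_contra hne
    have hne' : ((i : ℤ) - i') ≠ 0 := by omega
    have h3 := Int.le_of_dvd (abs_pos.2 hne') ((dvd_abs _ _).2 h2)
    have h4 : |(i : ℤ) - i'| < q := by
      rw [abs_lt]; constructor <;> omega
    omega
  have hcard := Finset.card_le_card_of_injOn r hmaps hinj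
  rw [Int.card_Icc] at hcard
  have h5 : (((⌊L + (q * τ + 1)⌋ + 1 - ⌈L⌉).toNat : ℕ) : ℝ) ≤ q * τ + 2 := by
    have h6 : 0 ≤ (q : ℝ) * τ + 2 := by positivity
    rcases le_or_gt 0 (⌊L + (q * τ + 1)⌋ + 1 - ⌈L⌉) with h7 | h7
    · have h8 : (((⌊L + (q * τ + 1)⌋ + 1 - ⌈L⌉).toNat : ℕ) : ℝ) =
          ((⌊L + (q * τ + 1)⌋ + 1 - ⌈L⌉ : ℤ) : ℝ) := by
        have := Int.toNat_of_nonneg h7
        exact_mod_cast this
      rw [h8]
      push_cast
      have := Int.floor_le (L + (q * τ + 1))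
      have := Int.le_ceil L
      linarith
    · rw [Int.toNat_of_nonpos h7.le]
      simpa using h6
  exact le_trans (by exact_mod_cast hcard) h5

theorem low_add (a : ℤ) (q : ℕ) (h : Good a q) (τ X : ℝ) (hτ : 0 ≤ τ) (n : ℕ) :
    ((low τ (n + q) X).card : ℝ) ≤ (low τ n X).card + (q * τ + 2) := by
  have hsplit : low τ (n + q) X = low τ n X ∪ ((Finset.Ioc n (n + q)).filter fun i : ℕ =>
      ⌈(i : ℝ) * al - X⌉ ≤ ⌊(i : ℝ) * al - X + τ⌋) := by
    unfold low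
    ext i
    simp only [Finset.mem_union, Finset.mem_filter, Finset.mem_Icc, Finset.mem_Ioc]
    constructor
    · rintro ⟨⟨h1, h2⟩, h3⟩
      rcases le_or_gt i n with h4 | h4
      · exact Or.inl ⟨⟨h1, h4⟩, h3⟩
      · exact Or.inr ⟨⟨h4, h2⟩, h3⟩
    · rintro (⟨⟨h1, h2⟩, h3⟩ | ⟨⟨h1, h2⟩, h3⟩)
      · exact ⟨⟨h1, by omega⟩, h3⟩
      · exact ⟨⟨by omega, h2⟩, h3⟩
  rw [hsplit]
  have h1 := Finset.card_union_le (low τ n X) ((Finset.Ioc n (n + q)).filter fun i : ℕ =>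
      ⌈(i : ℝ) * al - X⌉ ≤ ⌊(i : ℝ) * al - X + τ⌋)
  have h2 := block a q h τ X hτ n
  have h3 : (((low τ n X ∪ ((Finset.Ioc n (n + q)).filter fun i : ℕ =>
      ⌈(i : ℝ) * al - X⌉ ≤ ⌊(i : ℝ) * al - X + τ⌋)).card : ℕ) : ℝ) ≤
      ((low τ n X).card : ℝ) + ((((Finset.Ioc n (n + q)).filter fun i : ℕ =>
      ⌈(i : ℝ) * al - X⌉ ≤ ⌊(i : ℝ) * al - X + τ⌋).card : ℕ) : ℝ) := by exact_mod_cast h1
  linarith

theorem low_zero (τ X : ℝ) : low τ 0 X = ∅ := by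
  unfold low; simp

theorem low_mul (a : ℤ) (q : ℕ) (h : Good a q) (τ X : ℝ) (hτ : 0 ≤ τ) (n c : ℕ) :
    ((low τ (n + c * q) X).card : ℝ) ≤ (low τ n X).card + c * (q * τ + 2) := by
  induction c with
  | zero => simp
  | succ c ih =>
    have h1 := low_add a q h τ X hτ (n + c * q)
    have e : n + (c + 1) * q = n + c * q + q := by ring
    rw [e]
    push_cast
    linarith

end Pool.Agent.H621.Osc
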