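import Mathlib
import Pool.Agent.H621.Osc.Cyc
import Pool.Agent.H621.Osc.Visits
import Pool.Agent.H621.Osc.Logs
import Pool.Agent.H621.Osc.Measure

set_option autoImplicit false

/-!
Cycles of the `3x+1` and `3x-1` maps with oscillation at most `3.28` and large least element.
-/

namespace Pool.Agent.H621.Osc

def ckg (a q : ℕ) : Bool :=
  Nat.ble (q * (q * (A2 + 6723))) (A3 + q * (a * A3)) &&
  Nat.ble (q * (a * (A3 + 10945))) (A3 + q * (q * A2)) && Nat.beq (Nat.gcd a q) 1 && Nat.ble 1 q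

theorem ckg_sound (a q : ℕ) (h : ckg a q = true) : Good a q := by
  unfold ckg at h
  simp only [Bool.and_eq_true] at h
  obtain ⟨⟨⟨h1, h2⟩, h3⟩, h4⟩ := h
  have h1 := Nat.le_of_ble_eq_true h1
  have h2 := Nat.le_of_ble_eq_true h2
  have h3 : Nat.gcd a q = 1 := Nat.eq_of_beq_eq_true h3
  have h4 : 1 ≤ q := Nat.le_of_ble_eq_true h4
  refine ⟨h4, Nat.isCoprime_iff_coprime.2 h3, ?_⟩
  have hP : (0 : ℝ) < 2 ^ 14000 := pow_pos (by norm_num) _
  have b2 := log2_bounds
  have b3 := log3_bounds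
  have hl3 : 0 < Real.log 3 := Real.log_pos (by norm_num)
  have hq0 : (0 : ℝ) ≤ q := Nat.cast_nonneg q
  have ha0 : (0 : ℝ) ≤ a := Nat.cast_nonneg a
  have g1 : (q : ℝ) * (q * ((A2 : ℝ) + 6723)) ≤ A3 + q * (a * A3) := by exact_mod_cast h1
  have g2 : (q : ℝ) * (a * ((A3 : ℝ) + 10945)) ≤ A3 + q * (q * A2) := by exact_mod_cast h2
  have e : (q : ℝ) * al - ((a : ℤ) : ℝ) = (q * Real.log 2 - a * Real.log 3) / Real.log 3 := by
    unfold al; rw [Int.cast_natCast]; field_simp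
  rw [e, abs_div, abs_of_pos hl3, div_mul_eq_mul_div, div_le_one hl3]
  refine le_of_mul_le_mul_left ?_ hP
  have e2 : (2 : ℝ) ^ 14000 * (|q * Real.log 2 - a * Real.log 3| * q) =
      |q * (q * (2 ^ 14000 * Real.log 2)) - q * (a * (2 ^ 14000 * Real.log 3))| := by
    have e3 : (q : ℝ) * (q * (2 ^ 14000 * Real.log 2)) - q * (a * (2 ^ 14000 * Real.log 3)) =
        (q * Real.log 2 - a * Real.log 3) * (2 ^ 14000 * q) := by ring
    rw [e3, abs_mul, abs_of_nonneg (by positivity : (0 : ℝ) ≤ 2 ^ 14000 * q)]; ring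
  rw [e2, abs_le]
  have m1 := mul_le_mul_of_nonneg_left (mul_le_mul_of_nonneg_left b2.2 hq0) hq0
  have m2 := mul_le_mul_of_nonneg_left (mul_le_mul_of_nonneg_left b2.1 hq0) hq0
  have m3 := mul_le_mul_of_nonneg_left (mul_le_mul_of_nonneg_left b3.2 ha0) hq0
  have m4 := mul_le_mul_of_nonneg_left (mul_le_mul_of_nonneg_left b3.1 ha0) hq0
  constructor
  · linarith [b3.1]
  · linarith [b3.1]

theorem good84 : Good (53 : ℕ) 84 := ckg_sound 53 84 (by decide +kernel)
theorem good1054 : Good (665 : ℕ) 1054 := ckg_sound 665 1054 (by decide +kernel)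
theorem good24727 : Good (15601 : ℕ) 24727 := ckg_sound 15601 24727 (by decide +kernel)

theorem low_count (τ X : ℝ) (hτ : 0 ≤ τ) (a b c : ℕ) :
    ((low τ (24727 * a + 1054 * b + 84 * c) X).card : ℝ) ≤
      τ * ((24727 * a + 1054 * b + 84 * c : ℕ) : ℝ) + 2 * (a + b + c) := by
  have h1 := low_mul _ _ good24727 τ X hτ 0 a
  have h2 := low_mul _ _ good1054 τ X hτ (0 + a * 24727) b
  have h3 := low_mul _ _ good84 τ X hτ (0 + a * 24727 + b * 1054) c
  rw [low_zero] at h1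
  have e : 24727 * a + 1054 * b + 84 * c = 0 + a * 24727 + b * 1054 + c * 84 := by ring
  rw [e]
  push_cast at h1 h2 h3 ⊢
  rw [Finset.card_empty] at h1
  push_cast at h1
  linarith

theorem low_nat (V a b c : ℕ)
    (h : 8123 * (24727 * a + 1054 * b + 84 * c) + 200000 * (a + b + c) < 100000 * (V + 1)) (X : ℝ) :
    (low 0.08123 (24727 * a + 1054 * b + 84 * c) X).card ≤ V := by
  have h1 := low_count 0.08123 X (by norm_num) a b c
  have h2 : (8123 * ((24727 * a + 1054 * b + 84 * c : ℕ) : ℝ) + 200000 * ((a : ℝ) + b + c)) <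
      100000 * ((V : ℝ) + 1) := by exact_mod_cast h
  have h3 : ((low 0.08123 (24727 * a + 1054 * b + 84 * c) X).card : ℝ) < (V : ℝ) + 1 := by linarith
  have h4 : (low 0.08123 (24727 * a + 1054 * b + 84 * c) X).card < V + 1 := by exact_mod_cast h3
  omega

theorem log328 : Real.log 3.28 ≤ 1.081222 * Real.log 3 := by
  have h1 : (328 : ℕ) ^ 2881 ≤ 3 ^ 3115 * 100 ^ 2881 := by decide +kernel
  have h2 : (328 : ℝ) ^ 2881 ≤ 3 ^ 3115 * 100 ^ 2881 := by exact_mod_cast h1
  have h3 : (3.28 : ℝ) ^ 2881 ≤ 3 ^ 3115 := by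
    rw [show (3.28 : ℝ) = 328 / 100 by norm_num, div_pow, div_le_iff₀ (pow_pos (by norm_num) _)]
    exact h2
  have h4 := Real.log_le_log (pow_pos (by norm_num) _) h3
  rw [Real.log_pow, Real.log_pow] at h4
  push_cast at h4
  have hl3 : 0 < Real.log 3 := Real.log_pos (by norm_num)
  linarith

/-- the small perturbation -/
theorem pert (k : ℤ) (hk : k = 1 ∨ k = -1) (m z : ℝ) (hm : 10 ≤ m) (hz : m ≤ z) :
    |Real.log (1 + k / (3 * z))| ≤ 1 / (2.9 * m) := by
  have hz0 : 0 < z := by linarith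
  have hk1 : |(k : ℝ)| = 1 := by rcases hk with h | h <;> rw [h] <;> simp
  have ha : |(k : ℝ) / (3 * z)| = 1 / (3 * z) := by
    rw [abs_div, hk1, abs_of_pos (by positivity)]
  have hlt : |(k : ℝ) / (3 * z)| < 1 := by
    rw [ha, div_lt_one (by positivity)]; linarith
  refine (abs_log_le hlt).trans ?_
  rw [ha]
  have e : 1 / (3 * z) / (1 - 1 / (3 * z)) = 1 / (3 * z - 1) := by
    have : 3 * z - 1 ≠ 0 := by linarith
    field_simp
  rw [e]
  apply one_div_le_one_div_of_le (by positivity)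
  linarith

/-- the count for a cycle with oscillation at most `3.28` -/
theorem count328 (k : ℤ) (hk : k = 1 ∨ k = -1) (Z : Finset ℤ) (h : IsCycle k Z)
    (m : ℝ) (hm : 10 ≤ m) (hlo : ∀ z ∈ Z, m ≤ z) (hhi : ∀ z ∈ Z, (z : ℝ) ≤ 3.28 * m)
    (a b c V : ℕ)
    (hV : 8123 * (24727 * a + 1054 * b + 84 * c) + 200000 * (a + b + c) < 100000 * (V + 1))
    (h2 : 2.28 * m < 2 ^ (24727 * a + 1054 * b + 84 * c))
    (hN : 250000 * ((24727 * a + 1054 * b + 84 * c : ℕ) : ℝ) ≤ 2.9 * m) :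
    Z.card ≤ 2 ^ V * (4 * (24727 * a + 1054 * b + 84 * c) + 1) := by
  have hl3 : 0 < Real.log 3 := Real.log_pos (by norm_num)
  have hl31 : 1 ≤ Real.log 3 := by
    rw [← Real.log_exp 1]
    apply Real.log_le_log (Real.exp_pos 1)
    have := Real.exp_one_lt_d9
    linarith
  set N := 24727 * a + 1054 * b + 84 * c with hNdef
  have hm0 : 0 < m := by linarith
  refine card_le k (by rcases hk with h | h <;> rw [h] <;> rfl) Z (cyc_closed h) m 1.081222
    (1 / (2.9 * m)) 0.08123 N V hm0 hlo ?_ ?_ ?_ (by norm_num) ?_ (by norm_num) ?_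
  · intro z hz
    have hz0 : 0 < (z : ℝ) := hm0.trans_le (hlo z hz)
    have h3 := Real.log_le_log hz0 (hhi z hz)
    rw [Real.log_mul (by norm_num) hm0.ne'] at h3
    linarith [log328]
  · intro z hz z' hz'
    refine lt_of_le_of_lt ?_ h2
    rw [abs_le]
    have := hlo z hz
    have := hlo z' hz'
    have := hhi z hz
    have := hhi z' hz'
    constructor <;> linarith
  · intro z hz
    refine (pert k hk m z hm (hlo z hz)).trans ?_
    have : 0 ≤ 1 / (2.9 * m) := by positivity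
    nlinarith
  · have : 2 * (N : ℝ) * (1 / (2.9 * m)) ≤ 0.000008 := by
      rw [mul_one_div, div_le_iff₀ (by positivity)]
      linarith
    linarith
  · intro X
    exact low_nat V a b c hV X

theorem region (k : ℤ) (hk : k = 1 ∨ k = -1) (Z : Finset ℤ) (h : IsCycle k Z)
    (m : ℝ) (hlo : ∀ z ∈ Z, m ≤ z) (hhi : ∀ z ∈ Z, (z : ℝ) ≤ 3.28 * m)
    (a b c V w e L : ℕ) (hL : w + e ≤ L) (hL1 : 100 ≤ L)
    (hV : 8123 * (24727 * a + 1054 * b + 84 * c) + 200000 * (a + b + c) < 100000 * (V + 1))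
    (hW : 2 ^ V * (4 * (24727 * a + 1054 * b + 84 * c) + 1) < 2 ^ w)
    (hN : 24727 * a + 1054 * b + 84 * c ≤ 84721)
    (hreg : ∀ u o : ℤ, 0 < u → u < 2 ^ w → (1 / 2) ^ e ≤ |(u : ℝ) * Real.log 2 - o * Real.log 3|)
    (h1 : 2 ^ L ≤ 2.28 * m)
    (h2 : 2.28 * m < 2 ^ (24727 * a + 1054 * b + 84 * c)) : False := by
  have hL2 : (2 : ℝ) ^ 100 ≤ 2 ^ L := pow_le_pow_right₀ (by norm_num) hL1
  have hm1 : (2 : ℝ) ^ 100 ≤ 2.28 * m := hL2.trans h1
  have hm2 : (10 : ℝ) ^ 20 ≤ m := by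
    have : (2.28 : ℝ) * 10 ^ 20 ≤ 2 ^ 100 := by norm_num
    linarith
  have hm : 10 ≤ m := by linarith
  have hm0 : 0 < m := by linarith
  have hN' : ((24727 * a + 1054 * b + 84 * c : ℕ) : ℝ) ≤ 84721 := by exact_mod_cast hN
  have hp := count328 k hk Z h m hm hlo hhi a b c V hV h2 (by linarith)
  have hp2 : Z.card < 2 ^ w := lt_of_le_of_lt hp hW
  obtain ⟨x, hx⟩ := cyc_nonempty h
  have hc1 := (cyc_eq h x hx).1
  have hpos : ∀ z ∈ Z, 0 < z := by
    intro z hz
    have : (0 : ℝ) < z := hm0.trans_le (hlo z hz)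
    exact_mod_cast this
  obtain ⟨o, ho⟩ := cyc_form (by rcases hk with h | h <;> rw [h] <;> rfl) h hpos (1 / (2.9 * m))
    (fun z hz => pert k hk m z hm (hlo z hz))
  have hr := hreg Z.card o (by exact_mod_cast hc1) (by exact_mod_cast hp2)
  rw [Int.cast_natCast] at hr
  have hp3 : (Z.card : ℝ) < 2 ^ w := by exact_mod_cast hp2
  have h5 : (Z.card : ℝ) * (1 / (2.9 * m)) < (1 / 2) ^ e := by
    rw [mul_one_div, div_lt_iff₀ (by positivity), one_div_pow, div_mul_eq_mul_div, one_mul,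
      lt_div_iff₀ (by positivity)]
    have h6 : (2 : ℝ) ^ w * 2 ^ e ≤ 2 ^ L := by
      rw [← pow_add]; exact pow_le_pow_right₀ (by norm_num) hL
    have h7 : (Z.card : ℝ) * 2 ^ e < 2 ^ w * 2 ^ e := mul_lt_mul_of_pos_right hp3 (by positivity)
    linarith
  linarith

theorem final_num (N l : ℝ) (h1 : 0.6931471803 < l) (h2 : l < 0.6931471808) (hN : 84722 ≤ N)
    (h : (N - 85) * l ≤ 243 * l +
      12 * ((0.081311 * N + 72) * l + ((4 * N + 1) / 2 ^ 19 + 19 * l - 1))) : False := by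
  have e1 : (N - 85) * l = N * l - 85 * l := by ring
  have e2 : (0.081311 * N + 72) * l = 0.081311 * (N * l) + 72 * l := by ring
  rw [e1, e2] at h
  have h3 : 0.6931471803 * N ≤ N * l := by nlinarith
  norm_num at h
  linarith

/-- large least element -/
theorem top (k : ℤ) (hk : k = 1 ∨ k = -1) (Z : Finset ℤ) (h : IsCycle k Z)
    (m : ℝ) (hlo : ∀ z ∈ Z, m ≤ z) (hhi : ∀ z ∈ Z, (z : ℝ) ≤ 3.28 * m)
    (h1 : 2 ^ 84721 ≤ 2.28 * m) : False := by
  obtain ⟨n, hn1, hn2⟩ := exists_nat_pow_near (x := 2.28 * m) (y := 2)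
    ((one_le_pow₀ (by norm_num)).trans h1) (by norm_num)
  have hn : 84721 ≤ n := by
    by_contra hcon
    have h3 : n + 1 ≤ 84721 := by omega
    have h4 : (2 : ℝ) ^ (n + 1) ≤ 2 ^ 84721 := pow_le_pow_right₀ (by norm_num) h3
    exact absurd (h1.trans_lt hn2) (not_lt.2 h4)
  clear h1
  obtain ⟨a, b, c, N, hN, hN1, hN2, hb2, hc2⟩ : ∃ a b c N : ℕ, N = 24727 * a + 1054 * b + 84 * c ∧
      n + 1 ≤ N ∧ N ≤ n + 85 ∧ b ≤ 23 ∧ c ≤ 13 :=
    ⟨(n + 1) / 24727, (n + 1) % 24727 / 1054, (n + 1) % 24727 % 1054 / 84 + 1, _, rfl,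
      by omega, by omega, by omega, by omega⟩
  have hN0 : 84722 ≤ N := by omega
  -- size of m
  have hgrow : ∀ j : ℕ, 100 ≤ j → (10000000 : ℝ) * ((j : ℝ) + 85) ≤ 2 ^ j := by
    intro j hj
    induction j, hj using Nat.le_induction with
    | base => norm_num
    | succ j hj ih =>
      have : (100 : ℝ) ≤ j := by exact_mod_cast hj
      rw [pow_succ]
      push_cast
      linarith
  have hg := hgrow n (by omega)
  have hNr : (N : ℝ) ≤ n + 85 := by exact_mod_cast hN2
  have hn0 : (84721 : ℝ) ≤ n := by exact_mod_cast hn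
  have hm2 : (10000000 : ℝ) * N ≤ 2.28 * m := by linarith
  have hm : 10 ≤ m := by linarith
  have hm0 : 0 < m := by linarith
  -- the number of elements
  obtain ⟨V, hV⟩ : ∃ V : ℕ, V = (8123 * N + 200000 * (a + b + c)) / 100000 := ⟨_, rfl⟩
  have hp := count328 k hk Z h m hm hlo hhi a b c V (by rw [← hN]; omega)
    (lt_of_lt_of_le hn2 (pow_le_pow_right₀ (by norm_num) (by rw [← hN]; exact hN1)))
    (by rw [← hN]; linarith)
  rw [← hN] at hp
  obtain ⟨x, hx⟩ := cyc_nonempty h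
  have hc1 := (cyc_eq h x hx).1
  have hpos : ∀ z ∈ Z, 0 < z := by
    intro z hz
    have : (0 : ℝ) < z := hm0.trans_le (hlo z hz)
    exact_mod_cast this
  obtain ⟨o, ho⟩ := cyc_form (by rcases hk with h | h <;> rw [h] <;> rfl) h hpos (1 / (2.9 * m))
    (fun z hz => pert k hk m z hm (hlo z hz))
  set p := Z.card with hpdef
  have hp1 : (1 : ℝ) ≤ p := by exact_mod_cast hc1
  have hsmall : 1 / (2.9 * m) ≤ 0.001 := by
    rw [div_le_iff₀ (by positivity)]; linarith
  have ho2 : |(p : ℝ) * Real.log 2 - o * Real.log 3| ≤ 0.001 * p := by nlinarith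
  rw [abs_le] at ho2
  have l2a := Real.log_two_gt_d9
  have l2b := Real.log_two_lt_d9
  have l3a : 19 * Real.log 2 < 12 * Real.log 3 := by
    have : Real.log (2 ^ 19) < Real.log (3 ^ 12) := Real.log_lt_log (by norm_num) (by norm_num)
    rw [Real.log_pow, Real.log_pow] at this
    push_cast at this; exact this
  have l3b : 5 * Real.log 3 < 8 * Real.log 2 := by
    have : Real.log (3 ^ 5) < Real.log (2 ^ 8) := Real.log_lt_log (by norm_num) (by norm_num)
    rw [Real.log_pow, Real.log_pow] at this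
    push_cast at this; exact this
  have hl3 : 0 < Real.log 3 := Real.log_pos (by norm_num)
  have hl3b : Real.log 3 < 1.11 := by linarith
  have hl3a : 1.0974 < Real.log 3 := by linarith
  have hu1 : (p : ℤ) < 2 * o := by
    by_contra hcon
    have h3 : 2 * (o : ℝ) ≤ p := by exact_mod_cast not_lt.1 hcon
    nlinarith
  have ho0 : (0 : ℝ) < o := by
    have : (p : ℝ) < 2 * o := by exact_mod_cast hu1
    linarith
  have hu2 : 3 * o < 2 * (p : ℤ) := by
    by_contra hcon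
    have h3 : 2 * (p : ℝ) ≤ 3 * o := by exact_mod_cast not_lt.1 hcon
    nlinarith
  have hmeas := measure_explicit p o hu1 hu2
  rw [Int.cast_natCast] at hmeas
  have hH : (p : ℝ) - o ≤ p := by linarith
  have hH0 : 0 ≤ (p : ℝ) - o := by
    have : (3 * (o : ℝ)) < 2 * p := by exact_mod_cast hu2
    linarith
  have h5 : 2.9 * m ≤ 2 ^ 243 * (p : ℝ) ^ 12 := by
    have h6 : ((p : ℝ) - o) ^ 11 ≤ (p : ℝ) ^ 11 := pow_le_pow_left₀ hH0 hH 11
    have h7 : (1 : ℝ) ≤ 2 ^ 243 * (p : ℝ) ^ 11 * (p * (1 / (2.9 * m))) := by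
      refine hmeas.trans ?_
      apply mul_le_mul _ ho (abs_nonneg _) (by positivity)
      exact mul_le_mul_of_nonneg_left h6 (by positivity)
    have h8 : (2 : ℝ) ^ 243 * (p : ℝ) ^ 11 * (p * (1 / (2.9 * m))) =
        2 ^ 243 * (p : ℝ) ^ 12 / (2.9 * m) := by
      field_simp
    rw [h8, le_div_iff₀ (by positivity), one_mul] at h7
    exact h7
  -- logarithms
  have hlogp : Real.log p ≤ V * Real.log 2 + Real.log (4 * N + 1) := by
    have h6 : (p : ℝ) ≤ 2 ^ V * (4 * N + 1) := by exact_mod_cast hp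
    have h7 := Real.log_le_log (by linarith) h6
    rw [Real.log_mul (by positivity) (by positivity), Real.log_pow] at h7
    exact h7
  have hlogN : Real.log (4 * (N : ℝ) + 1) ≤ (4 * N + 1) / 2 ^ 19 + 19 * Real.log 2 - 1 := by
    have h6 := Real.log_le_sub_one_of_pos (show 0 < (4 * (N : ℝ) + 1) / 2 ^ 19 by positivity)
    rw [Real.log_div (by positivity) (by positivity), Real.log_pow] at h6
    push_cast at h6
    linarith
  have hlogm : (n : ℝ) * Real.log 2 ≤ 243 * Real.log 2 + 12 * Real.log p := by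
    have h6 : (2 : ℝ) ^ n ≤ 2 ^ 243 * (p : ℝ) ^ 12 := by linarith
    have h7 := Real.log_le_log (by positivity) h6
    rw [Real.log_mul (by positivity) (by positivity), Real.log_pow, Real.log_pow, Real.log_pow] at h7
    push_cast at h7
    exact h7
  have hVr : (V : ℝ) ≤ 0.08123 * N + 2 * (a + b + c) := by
    have h6 : ((V : ℕ) : ℝ) ≤ ((8123 * N + 200000 * (a + b + c) : ℕ) : ℝ) / ((100000 : ℕ) : ℝ) := by
      rw [hV]; exact Nat.cast_div_le
    push_cast at h6
    linarith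
  have har : 24727 * (a : ℝ) ≤ N := by
    have : 24727 * a ≤ N := by omega
    exact_mod_cast this
  have hbr : (b : ℝ) ≤ 23 := by exact_mod_cast hb2
  have hcr : (c : ℝ) ≤ 13 := by exact_mod_cast hc2
  have hV2 : (V : ℝ) ≤ 0.081311 * N + 72 := by
    have : (a : ℝ) ≤ N / 24727 := by rw [le_div_iff₀ (by norm_num)]; linarith
    have hN00 : (0 : ℝ) ≤ N := Nat.cast_nonneg N
    linarith
  have hN3 : (84722 : ℝ) ≤ N := by exact_mod_cast hN0
  have hfin : ((N : ℝ) - 85) * Real.log 2 ≤ 243 * Real.log 2 +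
      12 * ((0.081311 * N + 72) * Real.log 2 + ((4 * N + 1) / 2 ^ 19 + 19 * Real.log 2 - 1)) := by
    have h6 : ((N : ℝ) - 85) * Real.log 2 ≤ n * Real.log 2 :=
      mul_le_mul_of_nonneg_right (by linarith) (by linarith)
    have h7 : (V : ℝ) * Real.log 2 ≤ (0.081311 * N + 72) * Real.log 2 :=
      mul_le_mul_of_nonneg_right hV2 (by linarith)
    linarith
  exact final_num N (Real.log 2) l2a l2b hN3 hfin

/-- **No large cycles.** -/
theorem no_large (k : ℤ) (hk : k = 1 ∨ k = -1) (Z : Finset ℤ) (h : IsCycle k Z)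
    (m : ℝ) (hlo : ∀ z ∈ Z, m ≤ z) (hhi : ∀ z ∈ Z, (z : ℝ) ≤ 3.28 * m)
    (h1 : 2 ^ 100 ≤ 2.28 * m) : False := by
  rcases lt_or_ge (2.28 * m) (2 ^ 336) with h2 | h2
  · exact region k hk Z h m hlo hhi 0 0 4 35 46 47 100 (by norm_num) (by norm_num) (by norm_num)
      (by norm_num) (by norm_num) region1 h1 (by norm_num at h2 ⊢; exact h2)
  rcases lt_or_ge (2.28 * m) (2 ^ 1054) with h3 | h3
  · exact region k hk Z h m hlo hhi 0 1 0 87 101 102 336 (by norm_num) (by norm_num) (by norm_num)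
      (by norm_num) (by norm_num) region2 h2 h3
  rcases lt_or_ge (2.28 * m) (2 ^ 5270) with h4 | h4
  · exact region k hk Z h m hlo hhi 0 5 0 438 460 460 1054 (by norm_num) (by norm_num)
      (by norm_num) (by decide +kernel) (by norm_num) region3 h3 h4
  rcases lt_or_ge (2.28 * m) (2 ^ 31051) with h5 | h5
  · exact region k hk Z h m hlo hhi 1 6 0 2536 2554 2554 5270 (by norm_num) (by norm_num)
      (by norm_num) (by decide +kernel) (by norm_num) region4 h4 h5
  rcases lt_or_ge (2.28 * m) (2 ^ 84721) with h6 | h6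
  · exact region k hk Z h m hlo hhi 3 10 0 6907 6928 6929 31051 (by norm_num) (by norm_num)
      (by norm_num) (by decide +kernel) (by norm_num) region5 h5 h6
  exact top k hk Z h m hlo hhi h6

end Pool.Agent.H621.Osc
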