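import Mathlib
import Pool.Agent.H621.Osc.Big
import Pool.Agent.H621.Osc.Base

set_option autoImplicit false

/-!
The cycles of the `3x+1` map on the integers with oscillation at most `3.28`.
-/

namespace Pool.Agent.H621.Osc

theorem odds_le (k x : ℤ) (i : ℕ) : odds k x i ≤ i := by
  induction i with
  | zero => simp [odds]
  | succ i ih =>
    rw [odds]
    split_ifs <;> omega

theorem table : ∀ i < 101, ∀ o < 101, 2 ^ i ≤ 3 ^ o ∨ 101 * 3 ^ o ≤ 100 * 2 ^ i := by
  decide +kernel

theorem word_cond (k : ℤ) (hk : k = 1 ∨ k = -1) (x : ℤ) (hx : 10000 < x)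
    (hwin : ∀ i : ℕ, x ≤ (T k)^[i] x ∧ 100 * (T k)^[i] x ≤ 328 * x) (i : ℕ) (hi : i ≤ 100) :
    (2 : ℤ) ^ i ≤ 3 ^ (odds k x i) ∧ 100 * 3 ^ (odds k x i) ≤ 331 * (2 : ℤ) ^ i := by
  have hxr : (10000 : ℝ) < x := by exact_mod_cast hx
  have hx0 : (0 : ℝ) < x := by linarith
  have hge : ∀ j : ℕ, (x : ℝ) ≤ (((T k)^[j] x : ℤ) : ℝ) := fun j => by exact_mod_cast (hwin j).1
  have h1 := log_iter k x (by rcases hk with h | h <;> rw [h] <;> rfl) (1 / (2.9 * x))
    (fun j => lt_of_lt_of_le (by omega) (hwin j).1)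
    (fun j => pert k hk x _ (by linarith) (hge j)) i
  set o := odds k x i with ho
  have hoi : o ≤ i := odds_le k x i
  have hs : (i : ℝ) * (1 / (2.9 * x)) ≤ 0.00345 := by
    rw [mul_one_div, div_le_iff₀ (by positivity)]
    have : (i : ℝ) ≤ 100 := by exact_mod_cast hi
    linarith
  have h2 : Real.log x ≤ Real.log (((T k)^[i] x : ℤ) : ℝ) := Real.log_le_log hx0 (hge i)
  have h3 : Real.log (((T k)^[i] x : ℤ) : ℝ) ≤ Real.log x + Real.log 3.28 := by
    rw [← Real.log_mul hx0.ne' (by norm_num)]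
    apply Real.log_le_log (hx0.trans_le (hge i))
    have : (100 : ℝ) * (((T k)^[i] x : ℤ) : ℝ) ≤ 328 * x := by exact_mod_cast (hwin i).2
    linarith
  rw [abs_le] at h1
  set D : ℝ := o * Real.log 3 - i * Real.log 2 with hD
  have hD1 : -0.00345 ≤ D := by linarith [h1.1, h1.2]
  have hD2 : D ≤ Real.log 3.28 + 0.00345 := by linarith [h1.1, h1.2]
  have hexp : Real.exp D * 2 ^ i = 3 ^ o := by
    rw [hD, Real.exp_sub, mul_comm (o : ℝ), mul_comm (i : ℝ), ← Real.rpow_def_of_pos (by norm_num),
      ← Real.rpow_def_of_pos (by norm_num), Real.rpow_natCast, Real.rpow_natCast]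
    field_simp
  have e1 : (0.99655 : ℝ) ≤ Real.exp D := by
    have := Real.add_one_le_exp D
    linarith
  have e2 : Real.exp D ≤ 3.31 := by
    have h4 : Real.exp D ≤ 3.28 * Real.exp 0.00345 := by
      have : Real.exp D ≤ Real.exp (Real.log 3.28 + 0.00345) := Real.exp_le_exp.2 hD2
      rwa [Real.exp_add, Real.exp_log (by norm_num)] at this
    have h5 : Real.exp 0.00345 ≤ 1 / 0.99655 := by
      have h := Real.one_sub_le_exp_neg (0.00345 : ℝ)
      rw [Real.exp_neg] at h
      have h0 := Real.exp_pos (0.00345 : ℝ)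
      rw [le_div_iff₀ (by norm_num)]
      have h3 : (1 - 0.00345) * Real.exp 0.00345 ≤ (Real.exp 0.00345)⁻¹ * Real.exp 0.00345 :=
        mul_le_mul_of_nonneg_right h h0.le
      rw [inv_mul_cancel₀ h0.ne'] at h3
      linarith
    have h6 : (3.28 : ℝ) * (1 / 0.99655) ≤ 3.31 := by norm_num
    nlinarith
  have hP : (0 : ℝ) < 2 ^ i := by positivity
  have f1 : (0.99655 : ℝ) * 2 ^ i ≤ 3 ^ o := by rw [← hexp]; nlinarith
  have f2 : (3 : ℝ) ^ o ≤ 3.31 * 2 ^ i := by rw [← hexp]; nlinarith
  have g2 : 100 * (3 : ℝ) ^ o ≤ 331 * 2 ^ i := by linarith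
  refine ⟨?_, by exact_mod_cast g2⟩
  rcases table i (by omega) o (by omega) with h | h
  · exact_mod_cast h
  · exfalso
    have h' : 101 * (3 : ℝ) ^ o ≤ 100 * 2 ^ i := by exact_mod_cast h
    linarith

theorem pos_cycle (s : Bool) (Z : Finset ℤ) (h : IsCycle (kk s) Z) (hpos : ∀ z ∈ Z, 0 < z)
    (hosc : ∀ x ∈ Z, ∀ y ∈ Z, 100 * x ≤ 328 * y) : (1 : ℤ) ∈ Z ∨ ((5 : ℤ) ∈ Z ∧ kk s = -1) := by
  have hk : kk s = 1 ∨ kk s = -1 := by unfold kk; cases s <;> simp
  have hk2 : kk s % 2 = 1 := by rcases hk with h | h <;> rw [h] <;> rfl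
  have hne := cyc_nonempty h
  set x := Z.min' hne with hx
  have hxZ : x ∈ Z := Z.min'_mem hne
  have hmin : ∀ z ∈ Z, x ≤ z := fun z hz => Z.min'_le z hz
  have hwin : ∀ i : ℕ, x ≤ (T (kk s))^[i] x ∧ 100 * (T (kk s))^[i] x ≤ 328 * x := fun i =>
    ⟨hmin _ (cyc_iter h x hxZ i), hosc _ (cyc_iter h x hxZ i) x hxZ⟩
  have hx1 : 1 ≤ x := hpos x hxZ
  rcases le_or_gt x 10000 with hle | hgt
  · have hsm : smalln s 10000 = true := by cases s; exact smalln_neg; exact smalln_pos
    rcases small_sound s 10000 hsm x hx1 (by exact_mod_cast hle) hwin with h1 | ⟨h1, h2⟩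
    · left; rw [← h1]; exact hxZ
    · right; exact ⟨by rw [← h1]; exact hxZ, h2⟩
  · exfalso
    rcases le_or_gt ((2 : ℝ) ^ 100) (2.28 * x) with hbig | hsmall
    · refine no_large (kk s) hk Z h x (fun z hz => by exact_mod_cast hmin z hz) (fun z hz => ?_) hbig
      have : (100 : ℝ) * z ≤ 328 * x := by exact_mod_cast hosc z hz x hxZ
      linarith
    · have hlt : x < 2 ^ (0 + 100) := by
        have : (x : ℝ) < 2 ^ 100 := by
          have : (0 : ℝ) < x := by exact_mod_cast hx1
          linarith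
        exact_mod_cast this
      have hd := dfs_ok s
      refine dfs_sound (kk s) hk2 x hwin 100 0 0 0 x le_rfl (by omega) (by ring) (by simp [odds]) hlt
        (fun i hi => word_cond (kk s) hk x hgt hwin i (by omega)) ?_
      simpa [odds] using hd

/-- the map of the problem -/
theorem T_neg (x : ℤ) : T 1 (-x) = -T (-1) x := by
  unfold T
  rcases Int.emod_two_eq_zero_or_one x with h | h
  · rw [if_pos (by omega), if_pos h]; omega
  · rw [if_neg (by omega), if_neg (by omega)]; omega

theorem iter_neg (x : ℤ) (i : ℕ) : (T 1)^[i] (-x) = -(T (-1))^[i] x := by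
  induction i with
  | zero => rfl
  | succ i ih => rw [Function.iterate_succ_apply', Function.iterate_succ_apply', ih, T_neg]

theorem cyc_neg {Z : Finset ℤ} (h : IsCycle 1 Z) : IsCycle (-1) (Z.image fun z => -z) := by
  obtain ⟨x, p, hp, hx, hZ⟩ := h
  have e : ∀ i : ℕ, (T (-1))^[i] (-x) = -(T 1)^[i] x := by
    intro i
    have := iter_neg (-x) i
    rw [neg_neg] at this
    rw [this, neg_neg]
  refine ⟨-x, p, hp, by rw [e, hx], ?_⟩
  rw [hZ, Finset.image_image]
  apply Finset.image_congr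
  intro i _
  simp only [Function.comp]
  exact (e i).symm

theorem T_pos {x : ℤ} (h : 0 < x) : 0 < T 1 x := by
  unfold T
  split_ifs <;> omega

theorem T_neg' {x : ℤ} (h : x < 0) : T 1 x < 0 := by
  unfold T
  split_ifs <;> omega

theorem sign_cases {Z : Finset ℤ} (h : IsCycle 1 Z) :
    Z = {0} ∨ (∀ z ∈ Z, 0 < z) ∨ (∀ z ∈ Z, z < 0) := by
  obtain ⟨x, hx⟩ := cyc_nonempty h
  obtain ⟨_, _, hZ⟩ := cyc_eq h x hx
  rcases lt_trichotomy x 0 with h0 | h0 | h0
  · right; right
    intro z hz
    rw [hZ, Finset.mem_image] at hz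
    obtain ⟨i, _, rfl⟩ := hz
    have : ∀ i : ℕ, (T 1)^[i] x < 0 := by
      intro i
      induction i with
      | zero => exact h0
      | succ i ih => rw [Function.iterate_succ_apply']; exact T_neg' ih
    exact this i
  · left
    have : ∀ i : ℕ, (T 1)^[i] x = 0 := by
      intro i
      induction i with
      | zero => exact h0
      | succ i ih => rw [Function.iterate_succ_apply', ih]; rfl
    ext z
    rw [Finset.mem_singleton]
    constructor
    · intro hz
      rw [hZ, Finset.mem_image] at hz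
      obtain ⟨i, _, rfl⟩ := hz
      exact this i
    · intro hz
      rw [hz, ← h0]; exact hx
  · right; left
    intro z hz
    rw [hZ, Finset.mem_image] at hz
    obtain ⟨i, _, rfl⟩ := hz
    have : ∀ i : ℕ, 0 < (T 1)^[i] x := by
      intro i
      induction i with
      | zero => exact h0
      | succ i ih => rw [Function.iterate_succ_apply']; exact T_pos ih
    exact this i

/-- a cycle is determined by an element and a return time -/
theorem cyc_of_return {k : ℤ} {Z : Finset ℤ} (h : IsCycle k Z) (x : ℤ) (hx : x ∈ Z) (n : ℕ)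
    (hn : 1 ≤ n) (hret : (T k)^[n] x = x) : Z = (Finset.range n).image fun i => (T k)^[i] x := by
  obtain ⟨_, _, hZ⟩ := cyc_eq h x hx
  have hper : Function.IsPeriodicPt (T k) n x := hret
  ext z
  rw [Finset.mem_image]
  constructor
  · intro hz
    rw [hZ, Finset.mem_image] at hz
    obtain ⟨i, _, hi⟩ := hz
    exact ⟨i % n, Finset.mem_range.2 (Nat.mod_lt _ (by omega)), by rw [← hi]; exact hper.iterate_mod_apply i⟩
  · rintro ⟨i, _, hi⟩
    rw [← hi]
    exact cyc_iter h x hx i

/-- **Classification of the cycles with oscillation at most `3.28`.** -/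
theorem classification (Z : Finset ℤ) :
    (IsCycle 1 Z ∧ ∀ x ∈ Z, ∀ y ∈ Z, 100 * |x| ≤ 328 * |y|) ↔
      Z = {0} ∨ Z = {-1} ∨ Z = {1, 2} ∨ Z = {-5, -7, -10} := by
  constructor
  · rintro ⟨h, hosc⟩
    rcases sign_cases h with h0 | h0 | h0
    · left; exact h0
    · have h1 : (1 : ℤ) ∈ Z ∨ ((5 : ℤ) ∈ Z ∧ kk true = -1) := by
        apply pos_cycle true Z h h0
        intro x hx y hy
        have := hosc x hx y hy
        rwa [abs_of_pos (h0 x hx), abs_of_pos (h0 y hy)] at this
      rcases h1 with h1 | ⟨_, h1⟩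
      · right; right; left
        rw [cyc_of_return h 1 h1 2 (by norm_num) (by decide)]
        decide
      · exact absurd h1 (by decide)
    · have h2 := cyc_neg h
      have h3 : (1 : ℤ) ∈ Z.image (fun z => -z) ∨ ((5 : ℤ) ∈ Z.image (fun z => -z) ∧ kk false = -1) := by
        apply pos_cycle false _ h2
        · intro z hz
          rw [Finset.mem_image] at hz
          obtain ⟨w, hw, rfl⟩ := hz
          have := h0 w hw
          omega
        · intro x hx y hy
          rw [Finset.mem_image] at hx hy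
          obtain ⟨w, hw, rfl⟩ := hx
          obtain ⟨w', hw', rfl⟩ := hy
          have := hosc w hw w' hw'
          rwa [abs_of_neg (h0 w hw), abs_of_neg (h0 w' hw')] at this
      rcases h3 with h3 | ⟨h3, _⟩
      · rw [Finset.mem_image] at h3
        obtain ⟨w, hw, hw1⟩ := h3
        have hw2 : w = -1 := by omega
        rw [hw2] at hw
        right; left
        rw [cyc_of_return h (-1) hw 1 (by norm_num) (by decide)]
        decide
      · rw [Finset.mem_image] at h3
        obtain ⟨w, hw, hw1⟩ := h3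
        have hw2 : w = -5 := by omega
        rw [hw2] at hw
        right; right; right
        rw [cyc_of_return h (-5) hw 3 (by norm_num) (by decide)]
        decide
  · rintro (rfl | rfl | rfl | rfl)
    · exact ⟨⟨0, 1, by norm_num, by decide, by decide⟩, by decide⟩
    · exact ⟨⟨-1, 1, by norm_num, by decide, by decide⟩, by decide⟩
    · exact ⟨⟨1, 2, by norm_num, by decide, by decide⟩, by decide⟩
    · exact ⟨⟨-5, 3, by norm_num, by decide, by decide⟩, by decide⟩

end Pool.Agent.H621.Osc
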