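import Mathlib
import Pool.Agent.H621.Osc.Base

set_option autoImplicit false

/-!
The least elements of the cycles of the `3x+1` and `3x-1` maps on the positive integers: a search
up to `224000`.
-/

namespace Pool.Agent.H621.Osc

/-- the map, with recursors which are evaluated fast -/
def tq (s : Bool) (y : ℕ) : ℕ :=
  Nat.rec (motive := fun _ => ℕ) (Nat.div y 2)
    (fun _ _ => Bool.rec (motive := fun _ => ℕ) (Nat.div (Nat.sub (Nat.mul 3 y) 1) 2)
      (Nat.div (Nat.add (Nat.mul 3 y) 1) 2) s) (Nat.mod y 2)

theorem tq_eq (s : Bool) (y : ℕ) : tq s y = tn s y := by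
  have e1 : Nat.mod y 2 = y % 2 := rfl
  unfold tq tn
  rw [e1]
  rcases Nat.mod_two_eq_zero_or_one y with h | h
  · rw [h]; rfl
  · rw [h]; cases s <;> rfl

/-- does the orbit of `y` fall below `x` in the next `f` steps? -/
def fall (s : Bool) (x f : ℕ) : ℕ → Bool :=
  Nat.rec (motive := fun _ => ℕ → Bool) (fun _ => false)
    (fun _ ih y => Bool.rec (motive := fun _ => Bool) (ih (tq s y)) true
      (Nat.ble (Nat.succ (tq s y)) x)) f

theorem fall_sound (s : Bool) (x : ℕ) : ∀ (f y : ℕ), fall s x f y = true →
    ¬ ∀ i : ℕ, (x : ℤ) ≤ (T (kk s))^[i] (y : ℤ) := by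
  intro f
  induction f with
  | zero => intro y h; exact absurd h (by simp [fall])
  | succ f ih =>
    intro y h hw
    have e : fall s x (f + 1) y = Bool.rec (motive := fun _ => Bool) (fall s x f (tq s y)) true
      (Nat.ble (Nat.succ (tq s y)) x) := rfl
    rw [e] at h
    rcases hb : Nat.ble (Nat.succ (tq s y)) x with _ | _
    · rw [hb] at h
      have h' : fall s x f (tq s y) = true := h
      apply ih (tq s y) h'
      intro i
      have := hw (i + 1)
      rwa [Function.iterate_succ_apply, T_cast, ← tq_eq] at this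
    · have h1 : Nat.succ (tq s y) ≤ x := Nat.le_of_ble_eq_true hb
      have := hw 1
      simp only [Function.iterate_one] at this
      rw [T_cast, ← tq_eq] at this
      omega

/-- check of `4 j + r` for `a ≤ j < a + n` -/
def blk (s : Bool) (r a n : ℕ) : Bool :=
  Nat.rec (motive := fun _ => Bool) true
    (fun n ih => Bool.rec (motive := fun _ => Bool) false ih
      (fall s (4 * (a + n) + r) 140 (4 * (a + n) + r))) n

theorem blk_sound (s : Bool) (r a : ℕ) : ∀ n : ℕ, blk s r a n = true → ∀ j, a ≤ j → j < a + n →
    ¬ ∀ i : ℕ, ((4 * j + r : ℕ) : ℤ) ≤ (T (kk s))^[i] ((4 * j + r : ℕ) : ℤ) := by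
  intro n
  induction n with
  | zero => intro _ j h1 h2; omega
  | succ n ih =>
    intro h j h1 h2
    have e : blk s r a (n + 1) = Bool.rec (motive := fun _ => Bool) false (blk s r a n)
      (fall s (4 * (a + n) + r) 140 (4 * (a + n) + r)) := rfl
    rw [e] at h
    rcases hb : fall s (4 * (a + n) + r) 140 (4 * (a + n) + r) with _ | _
    · rw [hb] at h
      exact absurd h (by simp)
    · rw [hb] at h
      have h' : blk s r a n = true := h
      rcases eq_or_ne j (a + n) with h3 | h3
      · rw [h3]
        exact fall_sound s _ 140 _ hb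
      · exact ih h' j h1 (by omega)

def outer (s : Bool) (r : ℕ) (b : ℕ) : Bool :=
  Nat.rec (motive := fun _ => Bool) true
    (fun b ih => Bool.rec (motive := fun _ => Bool) false ih (blk s r (5 + 1000 * b) 1000)) b

theorem aux_lt (b j : ℕ) (h2 : j < 5 + 1000 * (b + 1)) : j < 5 + 1000 * b + 1000 := by
  rw [mul_add, mul_one, ← add_assoc] at h2
  exact h2

theorem outer_sound (s : Bool) (r : ℕ) : ∀ b : ℕ, outer s r b = true →
    ∀ j, 5 ≤ j → j < 5 + 1000 * b →
    ¬ ∀ i : ℕ, ((4 * j + r : ℕ) : ℤ) ≤ (T (kk s))^[i] ((4 * j + r : ℕ) : ℤ) := by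
  intro b
  induction b with
  | zero => intro _ j h1 h2; omega
  | succ b ih =>
    intro h j h1 h2
    have h4 : j < 5 + 1000 * b + 1000 := aux_lt b j h2
    have e : outer s r (b + 1) = Bool.rec (motive := fun _ => Bool) false (outer s r b)
      (blk s r (5 + 1000 * b) 1000) := rfl
    rw [e] at h
    rcases hb : blk s r (5 + 1000 * b) 1000 with _ | _
    · rw [hb] at h
      exact absurd h (by simp)
    · rw [hb] at h
      have h' : outer s r b = true := h
      rcases Nat.lt_or_ge j (5 + 1000 * b) with h3 | h3
      · exact ih h' j h1 h3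
      · exact blk_sound s r (5 + 1000 * b) 1000 hb j h3 h4

set_option maxRecDepth 1000000 in
theorem outer_pos : outer true 3 56 = true := by decide +kernel

set_option maxRecDepth 1000000 in
theorem outer_neg : outer false 1 56 = true := by decide +kernel

set_option maxRecDepth 1000000 in
theorem first_pos : blk true 3 0 5 = true := by decide +kernel

set_option maxRecDepth 1000000 in
theorem first_neg : blk false 1 2 2 = true := by decide +kernel

/-- the least elements of cycles -/
theorem stop_sound (s : Bool) (x : ℤ) (hx : 1 ≤ x) (hx2 : x < 224000)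
    (hw : ∀ i : ℕ, x ≤ (T (kk s))^[i] x) : x = 1 ∨ (s = false ∧ (x = 5 ∨ x = 17)) := by
  obtain ⟨n, rfl⟩ := Int.eq_ofNat_of_zero_le (by omega : 0 ≤ x)
  have hn1 : 1 ≤ n := by exact_mod_cast hx
  rcases eq_or_ne n 1 with h1 | h1
  · left; rw [h1]; rfl
  -- odd
  have hodd : n % 2 = 1 := by
    by_contra hcon
    have h2 := hw 1
    simp only [Function.iterate_one] at h2
    rw [T_cast, tn_even s (by omega)] at h2
    omega
  -- residue modulo four
  have hw2 := hw 2
  rw [Function.iterate_succ_apply, Function.iterate_one, T_cast, T_cast] at hw2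
  have ht := tn_odd s hodd
  cases s
  · have hk2 : kk false = -1 := rfl
    have hres : n % 4 = 1 := by
      by_contra hcon
      rw [hk2] at ht
      rw [tn_even false (by omega)] at hw2
      omega
    have hn : n = 4 * (n / 4) + 1 := by omega
    rcases Nat.lt_or_ge (n / 4) 5 with h5 | h5
    · have h6 : n / 4 = 0 ∨ n / 4 = 1 ∨ n / 4 = 2 ∨ n / 4 = 3 ∨ n / 4 = 4 := by omega
      rcases h6 with h6 | h6 | h6 | h6 | h6
      · omega
      · right; exact ⟨rfl, Or.inl (by omega)⟩
      · exact absurd (by rw [← hn]; exact hw)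
          (blk_sound false 1 2 2 first_neg (n / 4) (by omega) (by omega))
      · exact absurd (by rw [← hn]; exact hw)
          (blk_sound false 1 2 2 first_neg (n / 4) (by omega) (by omega))
      · right; exact ⟨rfl, Or.inr (by omega)⟩
    · exact absurd (by rw [← hn]; exact hw)
        (outer_sound false 1 56 outer_neg (n / 4) h5 (by omega))
  · have hk2 : kk true = 1 := rfl
    have hres : n % 4 = 3 := by
      by_contra hcon
      rw [hk2] at ht
      rw [tn_even true (by omega)] at hw2
      omega
    have hn : n = 4 * (n / 4) + 3 := by omega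
    rcases Nat.lt_or_ge (n / 4) 5 with h5 | h5
    · exact absurd (by rw [← hn]; exact hw)
        (blk_sound true 3 0 5 first_pos (n / 4) (by omega) (by omega))
    · exact absurd (by rw [← hn]; exact hw)
        (outer_sound true 3 56 outer_pos (n / 4) h5 (by omega))

end Pool.Agent.H621.Osc
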