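import Mathlib
import Pool.Agent.H621.Osc.Final
import Pool.Agent.H621.Osc.Stop

set_option autoImplicit false

/-!
The cycles of the `3x+1` map on the integers with few parity words, relative to their oscillation.
-/

namespace Pool.Agent.H621.Osc

/-- the parity words of length `n` read along `Z` -/
def words (k : ℤ) (Z : Finset ℤ) (n : ℕ) : Finset (Fin n → ℤ) :=
  Z.image fun x => fun i : Fin n => (T k)^[(i : ℕ)] x % 2

/-- long words are different -/
theorem card_words (k : ℤ) (hk : k % 2 = 1) (Z : Finset ℤ) (n : ℕ)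
    (hd : ∀ z ∈ Z, ∀ z' ∈ Z, |z - z'| < 2 ^ n) : (words k Z n).card = Z.card := by
  unfold words
  apply Finset.card_image_of_injOn
  intro x hx y hy hxy
  have h1 : ∀ i < n, (T k)^[i] x % 2 = (T k)^[i] y % 2 := fun i hi => congrFun hxy ⟨i, hi⟩
  have h2 := dvd_of_parity k hk n x y h1
  have h3 := hd x hx y hy
  have h4 : x - y = 0 := Int.eq_zero_of_abs_lt_dvd h2 h3
  omega

/-- the bound for the number of elements -/
theorem card_pow (k : ℤ) (hk : k % 2 = 1) (Z : Finset ℤ) (hne : Z.Nonempty) (m : ℤ) (hm : 1 ≤ m)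
    (hlo : ∀ z ∈ Z, m ≤ z) (K : ℕ) (hK : 1 ≤ K)
    (hhi : ∀ z ∈ Z, z ≤ 10 ^ 6 * m ^ K)
    (hw : ∀ n : ℕ, (words k Z n).card ^ (15 * K) ≤ 100 ^ (15 * K) * 2 ^ n) :
    (Z.card : ℤ) ^ 15 ≤ 2 * 10 ^ 36 * m := by
  have hX : (1 : ℤ) ≤ 10 ^ 6 * m ^ K := by
    have : (1 : ℤ) ≤ m ^ K := one_le_pow₀ hm
    linarith
  obtain ⟨X, hXe⟩ : ∃ X : ℕ, (X : ℤ) = 10 ^ 6 * m ^ K :=
    ⟨(10 ^ 6 * m ^ K).toNat, Int.toNat_of_nonneg (by omega)⟩
  have hX1 : 1 ≤ X := by exact_mod_cast (hXe ▸ hX : (1 : ℤ) ≤ (X : ℤ))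
  set n := Nat.log 2 X + 1 with hn
  have h1 : X < 2 ^ n := Nat.lt_pow_succ_log_self (by norm_num) X
  have h2 : 2 ^ n ≤ 2 * X := by
    rw [hn, pow_succ, mul_comm]
    exact Nat.mul_le_mul_left 2 (Nat.pow_log_le_self 2 (by omega))
  have h3 := card_words k hk Z n (by
    intro z hz z' hz'
    have a1 := hlo z hz
    have a2 := hlo z' hz'
    have a3 := hhi z hz
    have a4 := hhi z' hz'
    rw [← hXe] at a3 a4
    have a5 : (X : ℤ) < 2 ^ n := by exact_mod_cast h1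
    rw [abs_lt]
    constructor <;> linarith)
  have h4 := hw n
  rw [h3] at h4
  have h5 : (Z.card : ℤ) ^ (15 * K) ≤ 100 ^ (15 * K) * 2 ^ n := by exact_mod_cast h4
  have h6 : ((2 : ℤ) ^ n) ≤ 2 * (10 ^ 6 * m ^ K) := by
    rw [← hXe]; exact_mod_cast h2
  have h7 : (Z.card : ℤ) ^ (15 * K) ≤ (2 * 10 ^ 36 * m) ^ K := by
    have e1 : (2 : ℤ) * (10 ^ 6 * m ^ K) ≤ (2 * 10 ^ 6) ^ K * m ^ K := by
      have : (2 * 10 ^ 6 : ℤ) ^ 1 ≤ (2 * 10 ^ 6) ^ K := pow_le_pow_right₀ (by norm_num) hK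
      rw [pow_one] at this
      have hmK : (0 : ℤ) ≤ m ^ K := by positivity
      nlinarith
    calc (Z.card : ℤ) ^ (15 * K) ≤ 100 ^ (15 * K) * 2 ^ n := h5
      _ ≤ 100 ^ (15 * K) * ((2 * 10 ^ 6) ^ K * m ^ K) :=
          mul_le_mul_of_nonneg_left (h6.trans e1) (by positivity)
      _ = (2 * 10 ^ 36 * m) ^ K := by
          rw [pow_mul, ← mul_pow, ← mul_pow]
          congr 1
          norm_num
          ring
  rw [pow_mul] at h7
  exact (pow_le_pow_iff_left₀ (by positivity) (by positivity) (by omega)).1 h7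

theorem pairA (u o : ℤ) (hu0 : 0 < u) (hu : u < 50508) :
    (1 / 2) ^ 16 ≤ |(u : ℝ) * Real.log 2 - o * Real.log 3| :=
  ckp_sound 24727 15601 50508 31867 16 (by decide +kernel) u o hu0 hu

theorem pairB (u o : ℤ) (hu0 : 0 < u) (hu : u < 1054) :
    (1 / 2) ^ 10 ≤ |(u : ℝ) * Real.log 2 - o * Real.log 3| :=
  ckp_sound 485 306 1054 665 10 (by decide +kernel) u o hu0 hu

/-- the polynomial bound -/
theorem form_data (k : ℤ) (hk : k = 1 ∨ k = -1) (Z : Finset ℤ) (h : IsCycle k Z)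
    (m : ℝ) (hm1000 : 1000 ≤ m) (hlo : ∀ z ∈ Z, m ≤ z) : ∃ o : ℤ,
    |(Z.card : ℝ) * Real.log 2 - o * Real.log 3| ≤ Z.card * (1 / (2.9 * m)) ∧
      2.9 * m ≤ 2 ^ 243 * (Z.card : ℝ) ^ 12 := by
  have hm : 10 ≤ m := by linarith
  have hm0 : 0 < m := by linarith
  obtain ⟨x, hx⟩ := cyc_nonempty h
  have hc1 := (cyc_eq h x hx).1
  have hpos : ∀ z ∈ Z, 0 < z := by
    intro z hz
    have : (0 : ℝ) < z := hm0.trans_le (hlo z hz)
    exact_mod_cast this
  obtain ⟨o, ho⟩ := cyc_form (by rcases hk with h | h <;> rw [h] <;> rfl) h hpos (1 / (2.9 * m))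
    (fun z hz => pert k hk m z hm (hlo z hz))
  refine ⟨o, ho, ?_⟩
  set p := Z.card with hpdef
  have hp1 : (1 : ℝ) ≤ p := by exact_mod_cast hc1
  have hsmall : 1 / (2.9 * m) ≤ 0.001 := by
    rw [div_le_iff₀ (by positivity)]; linarith
  have ho2 : |(p : ℝ) * Real.log 2 - o * Real.log 3| ≤ 0.001 * p := by nlinarith
  rw [abs_le] at ho2
  have l2a := Real.log_two_gt_d9
  have l2b := Real.log_two_lt_d9
  have l3a : 19 * Real.log 2 < 12 * Real.log 3 := by
    have : Real.log (2 ^ 19) < Real.log (3 ^ 12) := Real.log_lt_log (by norm_num) (by norm_num)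
    rw [Real.log_pow, Real.log_pow] at this
    push_cast at this; exact this
  have l3b : 5 * Real.log 3 < 8 * Real.log 2 := by
    have : Real.log (3 ^ 5) < Real.log (2 ^ 8) := Real.log_lt_log (by norm_num) (by norm_num)
    rw [Real.log_pow, Real.log_pow] at this
    push_cast at this; exact this
  have hl3 : 0 < Real.log 3 := Real.log_pos (by norm_num)
  have hl3b : Real.log 3 < 1.11 := by linarith
  have hl3a : 1.0974 < Real.log 3 := by linarith
  have hu1 : (p : ℤ) < 2 * o := by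
    by_contra hcon
    have h3 : 2 * (o : ℝ) ≤ p := by exact_mod_cast not_lt.1 hcon
    nlinarith
  have ho0 : (0 : ℝ) < o := by
    have : (p : ℝ) < 2 * o := by exact_mod_cast hu1
    linarith
  have hu2 : 3 * o < 2 * (p : ℤ) := by
    by_contra hcon
    have h3 : 2 * (p : ℝ) ≤ 3 * o := by exact_mod_cast not_lt.1 hcon
    nlinarith
  have hmeas := measure_explicit p o hu1 hu2
  rw [Int.cast_natCast] at hmeas
  have hH : (p : ℝ) - o ≤ p := by linarith
  have hH0 : 0 ≤ (p : ℝ) - o := by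
    have : (3 * (o : ℝ)) < 2 * p := by exact_mod_cast hu2
    linarith
  have h6 : ((p : ℝ) - o) ^ 11 ≤ (p : ℝ) ^ 11 := pow_le_pow_left₀ hH0 hH 11
  have h7 : (1 : ℝ) ≤ 2 ^ 243 * (p : ℝ) ^ 11 * (p * (1 / (2.9 * m))) := by
    refine hmeas.trans ?_
    apply mul_le_mul _ ho (abs_nonneg _) (by positivity)
    exact mul_le_mul_of_nonneg_left h6 (by positivity)
  have h8 : (2 : ℝ) ^ 243 * (p : ℝ) ^ 11 * (p * (1 / (2.9 * m))) =
      2 ^ 243 * (p : ℝ) ^ 12 / (2.9 * m) := by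
    field_simp
  rw [h8, le_div_iff₀ (by positivity), one_mul] at h7
  exact h7

theorem step_down (p m : ℝ) (hp : 1 ≤ p) (hm : 0 < m) (h15 : p ^ 15 ≤ 2 * 10 ^ 36 * m) (e : ℕ)
    (L : ℝ) (hL : (1 / 2) ^ e ≤ L) (hL2 : L ≤ p * (1 / (2.9 * m))) (B : ℝ) (hB : 0 < B)
    (hB2 : 2 * 10 ^ 36 * 2 ^ e < 2.9 * B ^ 14) : 2.9 * m ≤ p * 2 ^ e ∧ p < B := by
  have h1 : 2.9 * m ≤ p * 2 ^ e := by
    have h2 : (1 / 2) ^ e ≤ p * (1 / (2.9 * m)) := hL.trans hL2
    rw [one_div_pow, mul_one_div, div_le_div_iff₀ (by positivity) (by positivity)] at h2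
    linarith
  refine ⟨h1, ?_⟩
  by_contra hcon
  have h3 : B ^ 14 ≤ p ^ 14 := pow_le_pow_left₀ hB.le (not_lt.1 hcon) 14
  have h4 : 2.9 * p ^ 15 ≤ 2 * 10 ^ 36 * (p * 2 ^ e) := by
    calc 2.9 * p ^ 15 ≤ 2.9 * (2 * 10 ^ 36 * m) := by linarith
      _ = 2 * 10 ^ 36 * (2.9 * m) := by ring
      _ ≤ 2 * 10 ^ 36 * (p * 2 ^ e) := mul_le_mul_of_nonneg_left h1 (by norm_num)
  have h5 : p * (2.9 * p ^ 14) ≤ p * (2 * 10 ^ 36 * 2 ^ e) := by
    calc p * (2.9 * p ^ 14) = 2.9 * p ^ 15 := by ring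
      _ ≤ _ := h4
      _ = _ := by ring
  have h6 := le_of_mul_le_mul_left h5 (by linarith)
  linarith

set_option exponentiation.threshold 1000 in
theorem no_large_ent (k : ℤ) (hk : k = 1 ∨ k = -1) (Z : Finset ℤ) (h : IsCycle k Z)
    (m : ℝ) (hlo : ∀ z ∈ Z, m ≤ z) (hm : 224000 ≤ m)
    (h15 : (Z.card : ℝ) ^ 15 ≤ 2 * 10 ^ 36 * m) : False := by
  have hm0 : 0 < m := by linarith
  obtain ⟨o, ho, h12⟩ := form_data k hk Z h m (by linarith) hlo
  obtain ⟨x, hx⟩ := cyc_nonempty h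
  have hc1 := (cyc_eq h x hx).1
  set p := Z.card with hpdef
  have hp1 : (1 : ℝ) ≤ p := by exact_mod_cast hc1
  have hpz : (0 : ℤ) < p := by exact_mod_cast hc1
  have hp0 : (0 : ℝ) < p := by linarith
  -- the measure
  have b1 : (p : ℝ) < 2 ^ 122 := by
    by_contra hcon
    have h3 : ((2 : ℝ) ^ 122) ^ 3 ≤ (p : ℝ) ^ 3 := pow_le_pow_left₀ (by positivity) (not_lt.1 hcon) 3
    have h4 : (p : ℝ) ^ 12 * (2.9 * (p : ℝ) ^ 3) ≤ (p : ℝ) ^ 12 * (2 * 10 ^ 36 * 2 ^ 243) := by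
      calc (p : ℝ) ^ 12 * (2.9 * (p : ℝ) ^ 3) = 2.9 * (p : ℝ) ^ 15 := by ring
        _ ≤ 2.9 * (2 * 10 ^ 36 * m) := by linarith
        _ = 2 * 10 ^ 36 * (2.9 * m) := by ring
        _ ≤ 2 * 10 ^ 36 * (2 ^ 243 * (p : ℝ) ^ 12) := mul_le_mul_of_nonneg_left h12 (by norm_num)
        _ = _ := by ring
    have h5 := le_of_mul_le_mul_left h4 (by positivity)
    have h6 : (2 : ℝ) * 10 ^ 36 * 2 ^ 243 < 2.9 * (2 ^ 122) ^ 3 := by norm_num
    linarith
  have hr3 := region3 p o hpz (by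
    have : (p : ℝ) < 2 ^ 460 := b1.trans (by norm_num)
    exact_mod_cast this)
  rw [Int.cast_natCast] at hr3
  obtain ⟨_, b2⟩ := step_down p m hp1 hm0 h15 460 _ hr3 ho (2 ^ 46) (by positivity) (by norm_num)
  have hr1 := region1 p o hpz (by exact_mod_cast b2)
  rw [Int.cast_natCast] at hr1
  obtain ⟨_, b3⟩ := step_down p m hp1 hm0 h15 47 _ hr1 ho 50508 (by positivity) (by norm_num)
  have hrA := pairA p o hpz (by exact_mod_cast b3)
  rw [Int.cast_natCast] at hrA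
  obtain ⟨_, b4⟩ := step_down p m hp1 hm0 h15 16 _ hrA ho 1054 (by positivity) (by norm_num)
  have hrB := pairB p o hpz (by exact_mod_cast b4)
  rw [Int.cast_natCast] at hrB
  obtain ⟨c5, b5⟩ := step_down p m hp1 hm0 h15 10 _ hrB ho 600 (by positivity) (by norm_num)
  linarith

theorem pos_cycle_ent (s : Bool) (Z : Finset ℤ) (h : IsCycle (kk s) Z) (hpos : ∀ z ∈ Z, 0 < z)
    (K : ℕ) (hK : 1 ≤ K) (hosc : ∀ x ∈ Z, ∀ y ∈ Z, x ≤ 10 ^ 6 * y ^ K)
    (hw : ∀ n : ℕ, (words (kk s) Z n).card ^ (15 * K) ≤ 100 ^ (15 * K) * 2 ^ n) :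
    (1 : ℤ) ∈ Z ∨ (s = false ∧ ((5 : ℤ) ∈ Z ∨ (17 : ℤ) ∈ Z)) := by
  have hk : kk s = 1 ∨ kk s = -1 := by unfold kk; cases s <;> simp
  have hk2 : kk s % 2 = 1 := by rcases hk with h | h <;> rw [h] <;> rfl
  have hne := cyc_nonempty h
  set x := Z.min' hne with hx
  have hxZ : x ∈ Z := Z.min'_mem hne
  have hmin : ∀ z ∈ Z, x ≤ z := fun z hz => Z.min'_le z hz
  have hx1 : 1 ≤ x := hpos x hxZ
  have hwin : ∀ i : ℕ, x ≤ (T (kk s))^[i] x := fun i => hmin _ (cyc_iter h x hxZ i)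
  rcases lt_or_ge x 224000 with hlt | hge
  · rcases stop_sound s x hx1 hlt hwin with h1 | ⟨h1, h2 | h2⟩
    · left; rw [← h1]; exact hxZ
    · right; exact ⟨h1, Or.inl (by rw [← h2]; exact hxZ)⟩
    · right; exact ⟨h1, Or.inr (by rw [← h2]; exact hxZ)⟩
  · exfalso
    have h15 := card_pow (kk s) hk2 Z hne x hx1 hmin K hK (fun z hz => hosc z hz x hxZ) hw
    refine no_large_ent (kk s) hk Z h x (fun z hz => by exact_mod_cast hmin z hz)
      (by exact_mod_cast hge) ?_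
    have : (((Z.card : ℤ) ^ 15 : ℤ) : ℝ) ≤ ((2 * 10 ^ 36 * x : ℤ) : ℝ) := by exact_mod_cast h15
    push_cast at this
    linarith

theorem words_neg (Z : Finset ℤ) (n : ℕ) :
    (words (-1) (Z.image fun z => -z) n).card = (words 1 Z n).card := by
  have e : ∀ (x : ℤ) (i : ℕ), (T (-1))^[i] (-x) = -(T 1)^[i] x := by
    intro x i
    have := iter_neg (-x) i
    rw [neg_neg] at this
    rw [this, neg_neg]
  have e2 : words (-1) (Z.image fun z => -z) n = words 1 Z n := by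
    unfold words
    rw [Finset.image_image]
    apply Finset.image_congr
    intro x _
    simp only [Function.comp]
    funext i
    rw [e]
    omega
  rw [e2]

theorem words_card_le (Z : Finset ℤ) (n : ℕ) : (words 1 Z n).card ≤ Z.card := Finset.card_image_le

theorem pow_bound (c K n : ℕ) (h : c ≤ 100) : c ^ (15 * K) ≤ 100 ^ (15 * K) * 2 ^ n :=
  (Nat.pow_le_pow_left h _).trans (Nat.le_mul_of_pos_right _ (by positivity))

/-- **Classification of the cycles with few parity words.** -/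
theorem classification_ent (Z : Finset ℤ) :
    (IsCycle 1 Z ∧ ∃ K : ℕ, 1 ≤ K ∧ (∀ x ∈ Z, ∀ y ∈ Z, |x| ≤ 10 ^ 6 * |y| ^ K) ∧
      ∀ n : ℕ, (words 1 Z n).card ^ (15 * K) ≤ 100 ^ (15 * K) * 2 ^ n) ↔
      Z = {0} ∨ Z = {-1} ∨ Z = {1, 2} ∨ Z = {-5, -7, -10} ∨
        Z = {-17, -25, -37, -55, -82, -41, -61, -91, -136, -68, -34} := by
  constructor
  · rintro ⟨h, K, hK, hosc, hw⟩
    rcases sign_cases h with h0 | h0 | h0
    · left; exact h0
    · have h1 : (1 : ℤ) ∈ Z ∨ (true = false ∧ ((5 : ℤ) ∈ Z ∨ (17 : ℤ) ∈ Z)) := by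
        apply pos_cycle_ent true Z h h0 K hK _ hw
        intro x hx y hy
        have := hosc x hx y hy
        rwa [abs_of_pos (h0 x hx), abs_of_pos (h0 y hy)] at this
      rcases h1 with h1 | ⟨h1, _⟩
      · right; right; left
        rw [cyc_of_return h 1 h1 2 (by norm_num) (by decide)]
        decide
      · exact absurd h1 (by decide)
    · have h2 := cyc_neg h
      have h3 : (1 : ℤ) ∈ Z.image (fun z => -z) ∨
          (false = false ∧ ((5 : ℤ) ∈ Z.image (fun z => -z) ∨ (17 : ℤ) ∈ Z.image (fun z => -z))) := by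
        apply pos_cycle_ent false _ h2 _ K hK
        · intro x hx y hy
          rw [Finset.mem_image] at hx hy
          obtain ⟨w, hw, rfl⟩ := hx
          obtain ⟨w', hw', rfl⟩ := hy
          have := hosc w hw w' hw'
          rwa [abs_of_neg (h0 w hw), abs_of_neg (h0 w' hw')] at this
        · intro n
          have e : kk false = -1 := rfl
          rw [e, words_neg]
          exact hw n
        · intro z hz
          rw [Finset.mem_image] at hz
          obtain ⟨w, hw, rfl⟩ := hz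
          have := h0 w hw
          omega
      rcases h3 with h3 | ⟨_, h3 | h3⟩
      · rw [Finset.mem_image] at h3
        obtain ⟨w, hw, hw1⟩ := h3
        have hw2 : w = -1 := by omega
        rw [hw2] at hw
        right; left
        rw [cyc_of_return h (-1) hw 1 (by norm_num) (by decide)]
        decide
      · rw [Finset.mem_image] at h3
        obtain ⟨w, hw, hw1⟩ := h3
        have hw2 : w = -5 := by omega
        rw [hw2] at hw
        right; right; right; left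
        rw [cyc_of_return h (-5) hw 3 (by norm_num) (by decide)]
        decide
      · rw [Finset.mem_image] at h3
        obtain ⟨w, hw, hw1⟩ := h3
        have hw2 : w = -17 := by omega
        rw [hw2] at hw
        right; right; right; right
        rw [cyc_of_return h (-17) hw 11 (by norm_num) (by decide)]
        decide
  · have key : ∀ Z : Finset ℤ, Z.card ≤ 100 → IsCycle 1 Z → (∀ x ∈ Z, ∀ y ∈ Z, |x| ≤ 10 ^ 6 * |y| ^ 1) →
        (IsCycle 1 Z ∧ ∃ K : ℕ, 1 ≤ K ∧ (∀ x ∈ Z, ∀ y ∈ Z, |x| ≤ 10 ^ 6 * |y| ^ K) ∧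
          ∀ n : ℕ, (words 1 Z n).card ^ (15 * K) ≤ 100 ^ (15 * K) * 2 ^ n) := by
      intro Z hc h1 h2
      exact ⟨h1, 1, le_rfl, h2, fun n => pow_bound _ 1 n ((words_card_le Z n).trans hc)⟩
    rintro (rfl | rfl | rfl | rfl | rfl)
    · exact key _ (by decide) ⟨0, 1, by norm_num, by decide, by decide⟩ (by decide)
    · exact key _ (by decide) ⟨-1, 1, by norm_num, by decide, by decide⟩ (by decide)
    · exact key _ (by decide) ⟨1, 2, by norm_num, by decide, by decide⟩ (by decide)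
    · exact key _ (by decide) ⟨-5, 3, by norm_num, by decide, by decide⟩ (by decide)
    · exact key _ (by decide) ⟨-17, 11, by norm_num, by decide, by decide⟩ (by decide)

end Pool.Agent.H621.Osc
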